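import Pool.Agent.K7.H30.LP.Peel

/-!
The Alon-Tarsi number of graphs with light 4-cycles.
-/

namespace Pool.Agent.K7.H30.LP

open SimpleGraph Finset MvPolynomial
open scoped Classical

variable {V : Type*} [Fintype V] {G : SimpleGraph V}

/-- The linear factor `x_u - x_v` of an edge `uv` (up to the sign). -/
noncomputable def fac {V : Type*} (e : Sym2 V) : MvPolynomial V ℤ :=
  X (Quot.out e).1 - X (Quot.out e).2

/-- The edges of `G` inside `S`. -/
noncomputable def eS (G : SimpleGraph V) (S : Finset V) : Finset (Sym2 V) :=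
  univ.filter fun e : Sym2 V => e ∈ G.edgeSet ∧ ∀ v ∈ e, v ∈ S

/-- The graph polynomial `∏ (x_u - x_v)` over the edges `uv` (up to the sign). -/
noncomputable def graphPoly (G : SimpleGraph V) : MvPolynomial V ℤ :=
  ∏ e ∈ univ.filter (fun e : Sym2 V => e ∈ G.edgeSet), fac e

/-- The Alon-Tarsi number of `G` is at most `k`: the graph polynomial has a monomial with a
nonzero coefficient in which all exponents are less than `k`. -/
def AlonTarsiLE (G : SimpleGraph V) (k : ℕ) : Prop :=
  ∃ m : V →₀ ℕ, (∀ v, m v < k) ∧ (graphPoly G).coeff m ≠ 0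

omit [Fintype V] in
theorem fac_or (u v : V) : (fac s(u, v) = X u - X v) ∨ (fac s(u, v) = X v - X u) := by
  have h : s((Quot.out s(u, v)).1, (Quot.out s(u, v)).2) = s(u, v) := Quot.out_eq _
  rw [Sym2.eq_iff] at h
  rcases h with ⟨h1, h2⟩ | ⟨h1, h2⟩
  · left; simp only [fac]; rw [h1, h2]
  · right; simp only [fac]; rw [h1, h2]

omit [Fintype V] in
theorem coeff_X_mul_zero {n : V →₀ ℕ} {u : V} (hn : n u = 0) (Q : MvPolynomial V ℤ) :
    coeff n (X u * Q) = 0 := by
  rw [coeff_X_mul', if_neg (by simpa using hn)]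

omit [Fintype V] in
theorem coeff_step {k u : V} (hku : k ≠ u) {n : V →₀ ℕ} (hn : n u = 0) (Q : MvPolynomial V ℤ) :
    coeff (Finsupp.single k 1 + n) (fac s(k, u) * Q) ≠ 0 ↔ coeff n Q ≠ 0 := by
  have h0 : coeff (Finsupp.single k 1 + n) (X u * Q) = 0 :=
    coeff_X_mul_zero (by simp [hn, hku]) Q
  rcases fac_or k u with h | h
  · rw [h, sub_mul, coeff_sub, coeff_X_mul, h0, sub_zero]
  · rw [h, sub_mul, coeff_sub, coeff_X_mul, h0, zero_sub, neg_ne_zero]

omit [Fintype V] in
theorem fac_hom (e : Sym2 V) : (fac e).IsHomogeneous 1 :=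
  (isHomogeneous_X _ _).sub (isHomogeneous_X _ _)

omit [Fintype V] in
theorem prod_hom (C : Finset (Sym2 V)) : (∏ e ∈ C, fac e).IsHomogeneous C.card := by
  have := IsHomogeneous.prod C (fun e => fac e) (fun _ => 1) (fun e _ => fac_hom e)
  simpa using this

omit [Fintype V] in
/-- Multiplicativity of the coefficient of the top part in the variables `K`. -/
theorem coeff_mul_top {A B : MvPolynomial V ℤ} {K : Finset V} {m' mK : V →₀ ℕ}
    (hA : ∀ a, A.coeff a ≠ 0 → ∀ v ∈ K, a v = 0) (hm' : ∀ v ∈ K, m' v = 0)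
    (hmK : ∀ v, v ∉ K → mK v = 0) (hB : B.IsHomogeneous mK.degree) :
    (A * B).coeff (m' + mK) = A.coeff m' * B.coeff mK := by
  rw [coeff_mul]
  refine Finset.sum_eq_single (m', mK) ?_ ?_
  · rintro ⟨a, b⟩ hab hne
    by_contra hcon
    have ha : A.coeff a ≠ 0 := left_ne_zero_of_mul hcon
    have hb : B.coeff b ≠ 0 := right_ne_zero_of_mul hcon
    have hab' : a + b = m' + mK := by simpa using hab
    have hdeg : b.degree = mK.degree := by
      by_contra hd
      exact hb (hB.coeff_eq_zero hd)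
    have hle : mK ≤ b := by
      intro v
      by_cases hv : v ∈ K
      · have h1 := DFunLike.congr_fun hab' v
        simp only [Finsupp.add_apply] at h1
        rw [hA a ha v hv, hm' v hv] at h1
        omega
      · rw [hmK v hv]; exact Nat.zero_le _
    have hbm : b = mK := by
      obtain ⟨c, rfl⟩ := exists_add_of_le hle
      rw [map_add] at hdeg
      have : c.degree = 0 := by omega
      rw [Finsupp.degree_eq_zero_iff] at this
      rw [this, add_zero]
    subst hbm
    have ham : a = m' := add_right_cancel hab'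
    subst ham
    exact hne rfl
  · intro h
    exact (h (by simp)).elim

/-- The graph polynomial of `G[S]` has a monomial with a nonzero coefficient and all exponents at
most `n`. -/
def ATS (n : ℕ) (G : SimpleGraph V) (S : Finset V) : Prop :=
  ∃ m : V →₀ ℕ, (∀ v, m v ≤ n) ∧ (∀ v, v ∉ S → m v = 0) ∧ (∏ e ∈ eS G S, fac e).coeff m ≠ 0

theorem mem_eS {S : Finset V} {e : Sym2 V} : e ∈ eS G S ↔ e ∈ G.edgeSet ∧ ∀ v ∈ e, v ∈ S := by
  simp [eS]

omit [Fintype V] in
theorem cross_iff {K : Finset V} {κ : Sym2 V → V} (C : Finset (Sym2 V))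
    (hκ : ∀ e ∈ C, κ e ∈ K ∧ ∃ u, u ∉ K ∧ e = s(κ e, u)) (n : V →₀ ℕ)
    (hn : ∀ v, v ∉ K → n v = 0) (Q : MvPolynomial V ℤ) :
    coeff ((∑ e ∈ C, Finsupp.single (κ e) 1) + n) ((∏ e ∈ C, fac e) * Q) ≠ 0 ↔
      coeff n Q ≠ 0 := by
  induction C using Finset.induction_on with
  | empty => simp
  | insert e C heC ih =>
    obtain ⟨hk, u, hu, heu⟩ := hκ e (Finset.mem_insert_self _ _)
    have ih' := ih fun e' he' => hκ e' (Finset.mem_insert_of_mem he')
    rw [Finset.sum_insert heC, Finset.prod_insert heC, add_assoc, mul_assoc]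
    have hku : κ e ≠ u := fun h => hu (h ▸ hk)
    have h0 : ((∑ e ∈ C, Finsupp.single (κ e) 1) + n : V →₀ ℕ) u = 0 := by
      rw [Finsupp.add_apply, hn u hu, add_zero, Finsupp.finsetSum_apply]
      refine Finset.sum_eq_zero fun e' he' => ?_
      have := (hκ e' (Finset.mem_insert_of_mem he')).1
      rw [Finsupp.single_apply, if_neg]
      rintro rfl
      exact hu this
    have h1 : fac e = fac s(κ e, u) := by rw [← heu]
    rw [h1, coeff_step hku h0]
    exact ih'

theorem inner_supported (G : SimpleGraph V) (S K : Finset V) (a : V →₀ ℕ)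
    (ha : (∏ e ∈ eS G (S \ K), fac e).coeff a ≠ 0) (v : V) (hv : v ∈ K) : a v = 0 := by
  have h1 : (∏ e ∈ eS G (S \ K), fac e) ∈ supported ℤ ((K : Set V)ᶜ) := by
    refine Subalgebra.prod_mem _ fun e he => ?_
    obtain ⟨-, he2⟩ := mem_eS.1 he
    have hX : ∀ u ∈ e, (X u : MvPolynomial V ℤ) ∈ supported ℤ ((K : Set V)ᶜ) := by
      intro u hu
      rw [X_mem_supported]
      have := he2 u hu
      simp only [Finset.mem_sdiff] at this
      simpa using this.2
    obtain ⟨x, y, rfl⟩ : ∃ x y, e = s(x, y) := Sym2.exists.1 ⟨e, rfl⟩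
    rcases fac_or x y with h | h <;> rw [h]
    · exact Subalgebra.sub_mem _ (hX x (by simp)) (hX y (by simp))
    · exact Subalgebra.sub_mem _ (hX y (by simp)) (hX x (by simp))
  rw [mem_supported] at h1
  by_contra hne
  have h2 : v ∈ (∏ e ∈ eS G (S \ K), fac e).vars := by
    rw [mem_vars_iff_mem_support]
    exact ⟨a, by simpa [mem_support_iff] using ha, by simpa using hne⟩
  exact h1 h2 (by simpa using hv)

/-- Adding a block `K` of vertices. -/
theorem block {n : ℕ} {S K : Finset V} (hKS : K ⊆ S) (hA : ATS n G (S \ K)) (mi : V →₀ ℕ)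
    (hmi : ∀ v, v ∉ K → mi v = 0) (hmi' : (∏ e ∈ eS G K, fac e).coeff mi ≠ 0)
    (hdeg : ∀ v ∈ K, ((S \ K).filter fun u => G.Adj v u).card + mi v ≤ n) : ATS n G S := by
  obtain ⟨m', hm1, hm2, hm3⟩ := hA
  set C := (eS G S).filter fun e => ¬ (∀ v ∈ e, v ∉ K) ∧ ¬ (∀ v ∈ e, v ∈ K) with hC
  -- the factorisation
  have hprod : (∏ e ∈ eS G S, fac e) =
      (∏ e ∈ eS G (S \ K), fac e) * ((∏ e ∈ C, fac e) * ∏ e ∈ eS G K, fac e) := by
    rw [← Finset.prod_filter_mul_prod_filter_not (eS G S) (fun e => ∀ v ∈ e, v ∉ K)]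
    congr 1
    · refine Finset.prod_congr ?_ fun _ _ => rfl
      ext e
      simp only [Finset.mem_filter, mem_eS, Finset.mem_sdiff]
      constructor
      · rintro ⟨⟨h1, h2⟩, h3⟩
        exact ⟨h1, fun v hv => ⟨h2 v hv, h3 v hv⟩⟩
      · rintro ⟨h1, h2⟩
        exact ⟨⟨h1, fun v hv => (h2 v hv).1⟩, fun v hv => (h2 v hv).2⟩
    · rw [← Finset.prod_filter_mul_prod_filter_not
        ((eS G S).filter fun e => ¬ ∀ v ∈ e, v ∉ K) (fun e => ∀ v ∈ e, v ∈ K), mul_comm]
      congr 1
      · refine Finset.prod_congr ?_ fun _ _ => rfl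
        ext e
        simp only [hC, Finset.mem_filter]
        tauto
      · refine Finset.prod_congr ?_ fun _ _ => rfl
        ext e
        simp only [Finset.mem_filter, mem_eS]
        constructor
        · rintro ⟨⟨⟨h1, h2⟩, h3⟩, h4⟩
          exact ⟨h1, h4⟩
        · rintro ⟨h1, h2⟩
          refine ⟨⟨⟨h1, fun v hv => hKS (h2 v hv)⟩, ?_⟩, h2⟩
          obtain ⟨x, y, rfl⟩ : ∃ x y, e = s(x, y) := Sym2.exists.1 ⟨e, rfl⟩
          intro h
          exact h x (by simp) (h2 x (by simp))
  -- the choice of the end in `K`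
  have hex : ∀ e : Sym2 V, ∃ k : V, e ∈ C → k ∈ K ∧ k ∈ e ∧ ∃ u, u ∉ K ∧ e = s(k, u) := by
    intro e
    obtain ⟨x, y, rfl⟩ : ∃ x y, e = s(x, y) := Sym2.exists.1 ⟨e, rfl⟩
    by_cases he : s(x, y) ∈ C
    · rw [hC, Finset.mem_filter] at he
      obtain ⟨-, h1, h2⟩ := he
      push Not at h1 h2
      obtain ⟨k, hk, hkK⟩ := h1
      obtain ⟨u, hu, huK⟩ := h2
      refine ⟨k, fun _ => ⟨hkK, hk, u, huK, ?_⟩⟩
      have hku : k ≠ u := by rintro rfl; exact huK hkK
      exact (Sym2.mem_and_mem_iff hku).1 ⟨hk, hu⟩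
    · exact ⟨x, fun h => (he h).elim⟩
  choose κ hκ using hex
  set mC : V →₀ ℕ := ∑ e ∈ C, Finsupp.single (κ e) 1 with hmC
  have hcross := cross_iff (K := K) (κ := κ) C
    (fun e he => ⟨(hκ e he).1, (hκ e he).2.2⟩) mi hmi (∏ e ∈ eS G K, fac e)
  have hBne : ((∏ e ∈ C, fac e) * ∏ e ∈ eS G K, fac e).coeff (mC + mi) ≠ 0 := hcross.2 hmi'
  have hmid : mi.degree = (eS G K).card := by
    by_contra hd
    exact hmi' ((prod_hom _).coeff_eq_zero hd)
  have hmCd : mC.degree = C.card := by
    rw [hmC, map_sum]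
    simp
  have hBhom : ((∏ e ∈ C, fac e) * ∏ e ∈ eS G K, fac e).IsHomogeneous (mC + mi).degree := by
    rw [map_add, hmid, hmCd]
    exact (prod_hom C).mul (prod_hom _)
  have hmCK : ∀ v, v ∉ K → mC v = 0 := by
    intro v hv
    rw [hmC, Finsupp.finsetSum_apply]
    refine Finset.sum_eq_zero fun e he => ?_
    rw [Finsupp.single_apply, if_neg]
    rintro rfl
    exact hv (hκ e he).1
  have hmCb : ∀ v, mC v ≤ ((S \ K).filter fun u => G.Adj v u).card := by
    intro v
    have h1 : mC v = (C.filter fun e => κ e = v).card := by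
      rw [hmC, Finsupp.finsetSum_apply, Finset.card_filter]
      refine Finset.sum_congr rfl fun e _ => ?_
      rw [Finsupp.single_apply]
    rw [h1]
    refine (Finset.card_le_card (t := ((S \ K).filter fun u => G.Adj v u).image
      fun u => s(v, u)) ?_).trans Finset.card_image_le
    intro e he
    rw [Finset.mem_filter] at he
    obtain ⟨heC, hev⟩ := he
    obtain ⟨h2, h3, u, hu, heu⟩ := hκ e heC
    rw [hev] at heu
    rw [Finset.mem_image]
    refine ⟨u, ?_, heu.symm⟩
    have heS : e ∈ eS G S := (Finset.mem_filter.1 heC).1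
    rw [mem_eS] at heS
    rw [Finset.mem_filter, Finset.mem_sdiff]
    subst heu
    exact ⟨⟨heS.2 u (by simp), hu⟩, by simpa using heS.1⟩
  refine ⟨m' + (mC + mi), ?_, ?_, ?_⟩
  · intro v
    simp only [Finsupp.add_apply]
    by_cases hv : v ∈ K
    · have h1 : m' v = 0 := hm2 v (by simp [hv])
      have h2 := hdeg v hv
      have h3 := hmCb v
      omega
    · have h1 := hm1 v
      rw [hmCK v hv, hmi v hv]
      omega
  · intro v hv
    simp only [Finsupp.add_apply]
    have hvK : v ∉ K := fun h => hv (hKS h)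
    have h1 : m' v = 0 := hm2 v (by simp [hv])
    have h2 := hmCK v hvK
    have h3 := hmi v hvK
    omega
  · rw [hprod, coeff_mul_top (K := K) (inner_supported G S K) ?_ ?_ hBhom]
    · exact mul_ne_zero hm3 hBne
    · intro v hv
      exact hm2 v (by simp [hv])
    · intro v hv
      simp [hmCK v hv, hmi v hv]

/-- The central coefficient of the 4-cycle is two. -/
theorem coeff_cycle4 {a b c d : V} (hab : a ≠ b) (hbc : b ≠ c) (hcd : c ≠ d) (hda : d ≠ a)
    (hac : a ≠ c) (hbd : b ≠ d) :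
    coeff (Finsupp.single a 1 + (Finsupp.single b 1 + (Finsupp.single c 1 + Finsupp.single d 1)))
      (fac s(a, b) * (fac s(b, c) * (fac s(c, d) * fac s(d, a)))) ≠ 0 := by
  have hsign : ∀ u v : V, ∃ ε : ℤ, ε ≠ 0 ∧ fac s(u, v) = C ε * (X u - X v) := by
    intro u v
    rcases fac_or u v with h | h
    · exact ⟨1, one_ne_zero, by rw [h]; simp⟩
    · exact ⟨-1, by norm_num, by rw [h]; simp⟩
  obtain ⟨ε1, h1, e1⟩ := hsign a b
  obtain ⟨ε2, h2, e2⟩ := hsign b c
  obtain ⟨ε3, h3, e3⟩ := hsign c d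
  obtain ⟨ε4, h4, e4⟩ := hsign d a
  rw [e1, e2, e3, e4]
  have hfac : C ε1 * (X a - X b) * (C ε2 * (X b - X c) * (C ε3 * (X c - X d) *
      (C ε4 * (X d - X a)))) = C (ε1 * ε2 * ε3 * ε4) *
      (((X a - X b) * ((X b - X c) * ((X c - X d) * (X d - X a)))) : MvPolynomial V ℤ) := by
    simp only [map_mul]
    ring
  rw [hfac, coeff_C_mul]
  refine mul_ne_zero (by positivity) ?_
  set Q3 : MvPolynomial V ℤ := X d - X a with hQ3
  set Q2 : MvPolynomial V ℤ := (X c - X d) * Q3 with hQ2
  set Q1 : MvPolynomial V ℤ := (X b - X c) * Q2 with hQ1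
  have q3d : coeff (Finsupp.single d 1) Q3 = 1 := by
    rw [hQ3, coeff_sub, coeff_X_same, coeff_X, if_neg]
    · simp
    · intro h
      exact hda (Finsupp.single_left_injective one_ne_zero h).symm
  have q3a : coeff (Finsupp.single a 1) Q3 = -1 := by
    rw [hQ3, coeff_sub, coeff_X_same, coeff_X, if_neg]
    · simp
    · intro h
      exact hda (Finsupp.single_left_injective one_ne_zero h)
  have q3o : ∀ x, x ≠ d → x ≠ a → coeff (Finsupp.single x 1) Q3 = 0 := by
    intro x hxd hxa
    rw [hQ3, coeff_sub, coeff_X, coeff_X, if_neg, if_neg]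
    · simp
    · intro h
      exact hxa (Finsupp.single_left_injective one_ne_zero h).symm
    · intro h
      exact hxd (Finsupp.single_left_injective one_ne_zero h).symm
  have q2cd : coeff (Finsupp.single c 1 + Finsupp.single d 1) Q2 = 1 := by
    rw [hQ2, sub_mul, coeff_sub, coeff_X_mul, q3d, add_comm, coeff_X_mul,
      q3o c hcd hac.symm, sub_zero]
  have q2bd : coeff (Finsupp.single b 1 + Finsupp.single d 1) Q2 = 0 := by
    rw [hQ2, sub_mul, coeff_sub, coeff_X_mul_zero (by simp [hbc.symm, hcd.symm, hbc, hcd]),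
      add_comm, coeff_X_mul, q3o b hbd hab.symm, sub_zero]
  have q2ad : coeff (Finsupp.single a 1 + Finsupp.single d 1) Q2 = 1 := by
    rw [hQ2, sub_mul, coeff_sub, coeff_X_mul_zero (by simp [hac, hcd.symm]),
      add_comm, coeff_X_mul, q3a]
    norm_num
  have q1b : coeff (Finsupp.single b 1 + (Finsupp.single c 1 + Finsupp.single d 1)) Q1 = 1 := by
    rw [hQ1, sub_mul, coeff_sub, coeff_X_mul, q2cd, add_left_comm, coeff_X_mul, q2bd, sub_zero]
  have q1a : coeff (Finsupp.single a 1 + (Finsupp.single c 1 + Finsupp.single d 1)) Q1 = -1 := by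
    rw [hQ1, sub_mul, coeff_sub, coeff_X_mul_zero (by simp [hab, hbc.symm, hbd.symm]),
      add_left_comm, coeff_X_mul, q2ad]
    norm_num
  rw [sub_mul, coeff_sub, coeff_X_mul, q1b, add_left_comm, coeff_X_mul, q1a]
  norm_num

theorem eS_singleton (v : V) : eS G {v} = ∅ := by
  rw [Finset.eq_empty_iff_forall_notMem]
  intro e he
  rw [mem_eS] at he
  obtain ⟨x, y, rfl⟩ : ∃ x y, e = s(x, y) := Sym2.exists.1 ⟨e, rfl⟩
  have h1 := he.2 x (by simp)
  have h2 := he.2 y (by simp)
  simp only [Finset.mem_singleton] at h1 h2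
  subst h1
  subst h2
  simp at he

theorem eS_empty : eS G (∅ : Finset V) = ∅ := by
  rw [Finset.eq_empty_iff_forall_notMem]
  intro e he
  rw [mem_eS] at he
  obtain ⟨x, y, rfl⟩ : ∃ x y, e = s(x, y) := Sym2.exists.1 ⟨e, rfl⟩
  simpa using he.2 x (by simp)

theorem ats_vertex {n : ℕ} {S : Finset V} {v : V} (hv : v ∈ S)
    (hd : ((S \ {v}).filter fun u => G.Adj v u).card ≤ n)
    (hA : ATS n G (S \ {v})) : ATS n G S := by
  refine block (K := {v}) (by simpa using hv) hA 0 (fun _ _ => rfl) ?_ ?_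
  · rw [eS_singleton]
    simp
  · intro w hw
    rw [Finset.mem_singleton] at hw
    subst hw
    simpa using hd

/-- The facts about a light 4-cycle which are used. -/
theorem Light4.facts {S : Finset V} {a b c d : V} (h : Light4 G S a b c d) :
    (({a, b, c, d} : Finset V) ⊆ S) ∧
    ∃ mi : V →₀ ℕ, (∀ v, v ∉ ({a, b, c, d} : Finset V) → mi v = 0) ∧
      (∏ e ∈ eS G {a, b, c, d}, fac e).coeff mi ≠ 0 ∧
      (∀ v ∈ ({a, b, c, d} : Finset V), mi v ≤ 1) ∧
      ∀ v ∈ ({a, b, c, d} : Finset V),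
        ((S \ {a, b, c, d}).filter fun u => G.Adj v u).card + 2 ≤ 4 := by
  obtain ⟨ha, hb, hc, hd, hac, hbd, hab, hbc, hcd, hda, nac, nbd, da, db, dc, dd⟩ := h
  have nab := hab.ne
  have nbc := hbc.ne
  have ncd := hcd.ne
  have nda := hda.ne
  set K : Finset V := {a, b, c, d} with hK
  have hKS : K ⊆ S := by
    intro x hx
    simp only [hK, Finset.mem_insert, Finset.mem_singleton] at hx
    rcases hx with rfl | rfl | rfl | rfl <;> assumption
  have mK : a ∈ K ∧ b ∈ K ∧ c ∈ K ∧ d ∈ K := by simp [hK]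
  obtain ⟨mKa, mKb, mKc, mKd⟩ := mK
  have hcard : ∀ v x y : V, x ∈ K → y ∈ K → x ≠ y → G.Adj v x → G.Adj v y →
      degIn G S v ≤ 4 → ((S \ K).filter fun u => G.Adj v u).card + 2 ≤ 4 := by
    intro v x y hx hy hxy hvx hvy hdeg
    refine le_trans ?_ hdeg
    have hsub : ((S \ K).filter fun u => G.Adj v u) ∪ {x, y} ⊆
        S.filter fun u => G.Adj v u := by
      intro u hu
      simp only [Finset.mem_union, Finset.mem_filter, Finset.mem_sdiff, Finset.mem_insert,
        Finset.mem_singleton] at hu ⊢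
      rcases hu with ⟨⟨h, -⟩, h'⟩ | rfl | rfl
      · exact ⟨h, h'⟩
      · exact ⟨hKS hx, hvx⟩
      · exact ⟨hKS hy, hvy⟩
    have hdisj : Disjoint ((S \ K).filter fun u => G.Adj v u) {x, y} := by
      rw [Finset.disjoint_left]
      intro u hu hu'
      simp only [Finset.mem_filter, Finset.mem_sdiff, Finset.mem_insert,
        Finset.mem_singleton] at hu hu'
      rcases hu' with rfl | rfl
      · exact hu.1.2 hx
      · exact hu.1.2 hy
    have := Finset.card_le_card hsub
    rwa [Finset.card_union_of_disjoint hdisj, Finset.card_pair hxy] at this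
  have hE : eS G K = {s(a, b), s(b, c), s(c, d), s(d, a)} := by
    ext e
    rw [mem_eS]
    constructor
    · rintro ⟨h1, h2⟩
      obtain ⟨x, y, rfl⟩ : ∃ x y, e = s(x, y) := Sym2.exists.1 ⟨e, rfl⟩
      have hx := h2 x (by simp)
      have hy := h2 y (by simp)
      rw [SimpleGraph.mem_edgeSet] at h1
      simp only [hK, Finset.mem_insert, Finset.mem_singleton] at hx hy
      rcases hx with rfl | rfl | rfl | rfl <;> rcases hy with rfl | rfl | rfl | rfl <;>
        first
        | exact (G.loopless.irrefl _ h1).elim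
        | exact (nac h1).elim
        | exact (nac h1.symm).elim
        | exact (nbd h1).elim
        | exact (nbd h1.symm).elim
        | simp [Sym2.eq_swap]
    · intro h
      simp only [Finset.mem_insert, Finset.mem_singleton] at h
      rcases h with rfl | rfl | rfl | rfl
      · exact ⟨hab, by simp [hK]⟩
      · exact ⟨hbc, by simp [hK]⟩
      · exact ⟨hcd, by simp [hK]⟩
      · exact ⟨hda, by simp [hK]⟩
  refine ⟨hKS,
    Finsupp.single a 1 + (Finsupp.single b 1 + (Finsupp.single c 1 + Finsupp.single d 1)),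
    ?_, ?_, ?_, ?_⟩
  · intro v hv
    simp only [hK, Finset.mem_insert, Finset.mem_singleton, not_or] at hv
    obtain ⟨h1, h2, h3, h4⟩ := hv
    simp [Ne.symm h1, Ne.symm h2, Ne.symm h3, Ne.symm h4]
  · rw [hE, Finset.prod_insert, Finset.prod_insert, Finset.prod_insert, Finset.prod_singleton]
    · exact coeff_cycle4 nab nbc ncd nda hac hbd
    · simp only [Finset.mem_singleton, Sym2.eq_iff, not_or, not_and]
      exact ⟨fun h => (ncd h).elim, fun h => (hac h.symm).elim⟩
    · simp only [Finset.mem_insert, Finset.mem_singleton, Sym2.eq_iff, not_or, not_and]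
      exact ⟨⟨fun h => (nbc h).elim, fun h => (hbd h).elim⟩,
        ⟨fun h => (hbd h).elim, fun h => (nab h.symm).elim⟩⟩
    · simp only [Finset.mem_insert, Finset.mem_singleton, Sym2.eq_iff, not_or, not_and]
      exact ⟨⟨fun h => (nab h).elim, fun h => (hac h).elim⟩,
        ⟨fun h => (hac h).elim, fun h => (nda h.symm).elim⟩,
        ⟨fun h => (nda h.symm).elim, fun _ h => hbd h⟩⟩
  · intro v hv
    simp only [Finsupp.add_apply, Finsupp.single_apply]
    simp only [hK, Finset.mem_insert, Finset.mem_singleton] at hv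
    rcases hv with rfl | rfl | rfl | rfl
    · simp [nab.symm, hac.symm, nda]
    · simp [nab, nbc.symm, hbd.symm]
    · simp [hac, nbc, ncd.symm]
    · simp [nda.symm, hbd, ncd]
  · intro v hv
    simp only [hK, Finset.mem_insert, Finset.mem_singleton] at hv
    rcases hv with rfl | rfl | rfl | rfl
    · exact hcard _ b d mKb mKd hbd hab hda.symm da
    · exact hcard _ a c mKa mKc hac hab.symm hbc db
    · exact hcard _ b d mKb mKd hbd hbc.symm hcd dc
    · exact hcard _ a c mKa mKc hac hda hcd.symm dd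

theorem ats_cycle {S : Finset V} {a b c d : V} (h : Light4 G S a b c d)
    (hA : ATS 3 G (S \ {a, b, c, d})) : ATS 3 G S := by
  obtain ⟨hKS, mi, h1, h2, h3, h4⟩ := h.facts
  refine block hKS hA mi h1 h2 fun v hv => ?_
  have := h3 v hv
  have := h4 v hv
  omega

omit [Fintype V] in
theorem card_sdiff_adj_le {S : Finset V} {v : V} :
    ((S \ {v}).filter fun u => G.Adj v u).card ≤ degIn G S v :=
  Finset.card_le_card (Finset.filter_subset_filter _ Finset.sdiff_subset)

theorem alonTarsiLE_of_ats {n : ℕ} (h : ATS n G univ) : AlonTarsiLE G (n + 1) := by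
  obtain ⟨m, h1, h2, h3⟩ := h
  refine ⟨m, fun v => Nat.lt_succ_of_le (h1 v), ?_⟩
  have : eS G univ = univ.filter (fun e : Sym2 V => e ∈ G.edgeSet) := by
    ext e
    simp [mem_eS]
  rw [this] at h3
  exact h3

/-- Graphs in which every vertex set has a vertex of degree at most three or a light 4-cycle have
Alon-Tarsi number at most four. -/
theorem alonTarsiLE_of_peel
    (hp : ∀ S : Finset V, S.Nonempty →
      (∃ v ∈ S, degIn G S v ≤ 3) ∨ ∃ a b c d, Light4 G S a b c d) :
    AlonTarsiLE G 4 := by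
  have key : ∀ n : ℕ, ∀ S : Finset V, S.card = n → ATS 3 G S := by
    intro n
    induction n using Nat.strong_induction_on with
    | _ n ih =>
      intro S hS
      rcases S.eq_empty_or_nonempty with rfl | hne
      · refine ⟨0, by simp, by simp, ?_⟩
        rw [eS_empty]
        simp
      · rcases hp S hne with ⟨v, hv, hd⟩ | ⟨a, b, c, d, h⟩
        · refine ats_vertex hv (card_sdiff_adj_le.trans hd) (ih _ ?_ _ rfl)
          rw [← hS]
          exact Finset.card_lt_card (Finset.sdiff_ssubset (by simpa using hv) (by simp))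
        · refine ats_cycle h (ih _ ?_ _ rfl)
          rw [← hS]
          exact Finset.card_lt_card (Finset.sdiff_ssubset h.facts.1 (by simp))
  exact alonTarsiLE_of_ats (key _ univ rfl)

/-! ### List colouring -/

theorem graphPoly_hom (G : SimpleGraph V) :
    (graphPoly G).IsHomogeneous (univ.filter (fun e : Sym2 V => e ∈ G.edgeSet)).card :=
  prod_hom _

/-- The theorem of Alon and Tarsi. -/
theorem listColourable_of_alonTarsi {k : ℕ} (h : AlonTarsiLE G k) : ListColourable G k := by
  intro α L hL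
  obtain ⟨m, h1, h2⟩ := h
  -- number the colours
  obtain ⟨f, hf⟩ : ∃ f : α → ℤ, Set.InjOn f (univ.biUnion L : Finset α) := by
    obtain ⟨g, hg⟩ := Countable.exists_injective_nat (univ.biUnion L : Finset α)
    refine ⟨fun x => if hx : x ∈ univ.biUnion L then (g ⟨x, hx⟩ : ℤ) else 0, ?_⟩
    intro x hx y hy hxy
    have hx' : x ∈ univ.biUnion L := hx
    have hy' : y ∈ univ.biUnion L := hy
    simp only [dif_pos hx', dif_pos hy', Nat.cast_inj] at hxy
    simpa using hg hxy
  have hmem : ∀ v, ∀ x ∈ L v, x ∈ (univ.biUnion L : Finset α) := fun v x hx =>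
    Finset.mem_biUnion.2 ⟨v, mem_univ v, hx⟩
  have hdeg : (graphPoly G).totalDegree = m.degree := by
    have hne : graphPoly G ≠ 0 := by
      intro h0
      rw [h0] at h2
      simp at h2
    rw [(graphPoly_hom G).totalDegree hne]
    by_contra hd
    exact h2 ((graphPoly_hom G).coeff_eq_zero (Ne.symm hd))
  obtain ⟨s, hs1, hs2⟩ := combinatorial_nullstellensatz_exists_eval_nonzero (graphPoly G) m h2 hdeg
    (fun v => (L v).image f) (fun v => by
      rw [Finset.card_image_of_injOn]
      · exact (h1 v).trans_le (hL v)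
      · intro x hx y hy hxy
        exact hf (hmem v x hx) (hmem v y hy) hxy)
  choose c hc using fun v => Finset.mem_image.1 (hs1 v)
  refine ⟨c, fun v => (hc v).1, fun u v huv heq => hs2 ?_⟩
  have hsuv : s u = s v := by rw [← (hc u).2, ← (hc v).2, heq]
  rw [graphPoly, map_prod]
  refine Finset.prod_eq_zero (i := s(u, v)) (by simpa using huv) ?_
  rcases fac_or u v with h | h <;> rw [h] <;> simp [hsuv]

end Pool.Agent.K7.H30.LP
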