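import Pool.Agent.K7.H30.LP.Defs

/-!
The chain complex of an embedded graph over the field with two elements.
-/

namespace Pool.Agent.K7.H30.LP

open SimpleGraph Finset
open scoped Classical

variable {V : Type*} [Fintype V] {G : SimpleGraph V}

/-- The edge of a dart. -/
def ed (d : G.Dart) : G.edgeSet := ⟨d.edge, d.edge_mem⟩

omit [Fintype V] in
@[simp] theorem ed_symm (d : G.Dart) : ed d.symm = ed d := by
  apply Subtype.ext
  simp [ed]

omit [Fintype V] in
theorem exists_dart (e : G.edgeSet) : ∃ d : G.Dart, ed d = e := by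
  obtain ⟨e, he⟩ := e
  induction e using Sym2.ind with
  | _ x y =>
    exact ⟨⟨(x, y), he⟩, rfl⟩

/-- A chosen dart of an edge. -/
noncomputable def dartOf (e : G.edgeSet) : G.Dart := (exists_dart e).choose

omit [Fintype V] in
@[simp] theorem ed_dartOf (e : G.edgeSet) : ed (dartOf e) = e := (exists_dart e).choose_spec

omit [Fintype V] in
theorem ed_eq_iff (d d' : G.Dart) : ed d = ed d' ↔ d = d' ∨ d = d'.symm := by
  rw [ed, ed, Subtype.mk.injEq, dart_edge_eq_iff]

omit [Fintype V] in
theorem ed_eq_iff' (d : G.Dart) (e : G.edgeSet) :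
    ed d = e ↔ d = dartOf e ∨ d = (dartOf e).symm := by
  conv_lhs => rw [← ed_dartOf e]
  exact ed_eq_iff _ _

omit [Fintype V] in
theorem symm_ne (d : G.Dart) : d ≠ d.symm := fun h => d.symm_ne h.symm

noncomputable instance : Fintype G.Dart := Fintype.ofFinite _
noncomputable instance : Fintype G.edgeSet := Fintype.ofFinite _

theorem filter_ed (e : G.edgeSet) :
    (univ.filter fun d : G.Dart => ed d = e) = {dartOf e, (dartOf e).symm} := by
  ext d
  simp [ed_eq_iff']

/-- Sums over darts are sums over edges. -/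
theorem sum_darts {M : Type*} [AddCommMonoid M] (F : G.Dart → M) :
    ∑ d, F d = ∑ e : G.edgeSet, (F (dartOf e) + F (dartOf e).symm) := by
  rw [← Finset.sum_fiberwise (s := univ) (g := fun d : G.Dart => ed d) (f := F)]
  refine Finset.sum_congr rfl fun e _ => ?_
  rw [filter_ed, Finset.sum_pair (symm_ne _)]

/-- Chains of edges. -/
abbrev C1 (G : SimpleGraph V) := G.edgeSet → ZMod 2

/-- The boundary of a chain of edges. -/
noncomputable def d1 (G : SimpleGraph V) : C1 G →ₗ[ZMod 2] (V → ZMod 2) where
  toFun z v := ∑ d ∈ univ.filter (fun d : G.Dart => d.fst = v), z (ed d)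
  map_add' z w := by
    ext v
    simp [Finset.sum_add_distrib]
  map_smul' a z := by
    ext v
    simp [Finset.mul_sum]

theorem d1_apply (z : C1 G) (v : V) :
    d1 G z v = ∑ d ∈ univ.filter (fun d : G.Dart => d.fst = v), z (ed d) := rfl

/-- Pairing of a vertex function with a boundary. -/
theorem pair_d1 (z : C1 G) (χ : V → ZMod 2) :
    ∑ v, χ v * d1 G z v = ∑ e : G.edgeSet, (χ (dartOf e).fst + χ (dartOf e).snd) * z e := by
  have h1 : ∑ v, χ v * d1 G z v = ∑ d : G.Dart, χ d.fst * z (ed d) := by
    rw [← Finset.sum_fiberwise (s := univ) (g := fun d : G.Dart => d.fst)]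
    refine Finset.sum_congr rfl fun v _ => ?_
    rw [d1_apply, Finset.mul_sum]
    refine Finset.sum_congr rfl fun d hd => ?_
    rw [(Finset.mem_filter.1 hd).2]
  rw [h1, sum_darts]
  refine Finset.sum_congr rfl fun e _ => ?_
  rw [ed_symm, ed_dartOf, add_mul]
  rfl

namespace Rotation

variable (R : Rotation G)

/-- The face on the side of a dart. -/
def fc (d : G.Dart) : R.Face := Quotient.mk (Equiv.Perm.SameCycle.setoid R.face) d

instance : Finite R.Face := Quotient.finite _

noncomputable instance : Fintype R.Face := Fintype.ofFinite _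

omit [Fintype V] in
theorem fc_eq_iff (d e : G.Dart) : R.fc d = R.fc e ↔ R.face.SameCycle d e := by
  exact Quotient.eq (r := Equiv.Perm.SameCycle.setoid R.face)

omit [Fintype V] in
theorem fc_next (d : G.Dart) : R.fc (R.next d) = R.fc d.symm := by
  rw [fc_eq_iff]
  have : R.next d = R.face d.symm := by simp
  rw [this]
  exact (Equiv.Perm.sameCycle_apply_left).2 (Equiv.Perm.SameCycle.refl _ _)

omit [Fintype V] in
theorem exists_fc (F : R.Face) : ∃ d, R.fc d = F := by
  induction F using Quotient.ind with
  | _ d => exact ⟨d, rfl⟩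

/-- The boundary of a chain of faces. -/
noncomputable def d2 : (R.Face → ZMod 2) →ₗ[ZMod 2] C1 G where
  toFun f e := f (R.fc (dartOf e)) + f (R.fc (dartOf e).symm)
  map_add' f g := by
    ext e
    simp only [Pi.add_apply]
    ring
  map_smul' a f := by
    ext e
    simp only [Pi.smul_apply, smul_eq_mul, RingHom.id_apply]
    ring

omit [Fintype V] in
theorem d2_apply (f : R.Face → ZMod 2) (e : G.edgeSet) :
    R.d2 f e = f (R.fc (dartOf e)) + f (R.fc (dartOf e).symm) := rfl

omit [Fintype V] in
theorem d2_ed (f : R.Face → ZMod 2) (d : G.Dart) :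
    R.d2 f (ed d) = f (R.fc d) + f (R.fc d.symm) := by
  rw [d2_apply]
  rcases (ed_eq_iff' d (ed d)).1 rfl with h | h
  · rw [← h]
  · have h' : dartOf (ed d) = d.symm := by
      have h2 := congrArg Dart.symm h
      rw [Dart.symm_symm] at h2
      exact h2.symm
    rw [h', Dart.symm_symm, add_comm]

/-- The boundary of a boundary vanishes. -/
theorem d1_d2 (f : R.Face → ZMod 2) : d1 G (R.d2 f) = 0 := by
  ext v
  rw [d1_apply]
  simp only [d2_ed, Finset.sum_add_distrib, Pi.zero_apply]
  have h1 : ∑ d ∈ univ.filter (fun d : G.Dart => d.fst = v), f (R.fc d.symm) =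
      ∑ d ∈ univ.filter (fun d : G.Dart => d.fst = v), f (R.fc d) := by
    refine Finset.sum_bij (fun d _ => R.next d) ?_ ?_ ?_ ?_
    · intro d hd
      simp only [Finset.mem_filter, Finset.mem_univ, true_and] at hd ⊢
      rw [R.next_fst, hd]
    · intro d _ e _ h
      exact R.next.injective h
    · intro d hd
      refine ⟨R.next.symm d, ?_, by simp⟩
      simp only [Finset.mem_filter, Finset.mem_univ, true_and] at hd ⊢
      rw [← hd]
      have := R.next_fst (R.next.symm d)
      rw [Equiv.apply_symm_apply] at this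
      exact this.symm
    · intro d _
      rw [R.fc_next]
  rw [h1]
  exact CharTwo.add_self_eq_zero _

end Rotation

end Pool.Agent.K7.H30.LP
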