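import Pool.Agent.K7.H30.LP.Defs

/-!
List colouring: critical vertex sets and a reducible 4-cycle.
-/

namespace Pool.Agent.K7.H30.LP

open SimpleGraph Finset
open scoped Classical

variable {V : Type*} [Fintype V] {G : SimpleGraph V} {α : Type*}

/-- The subgraph spanned by `S` is colourable from the lists. -/
def ColS (G : SimpleGraph V) (L : V → Finset α) (S : Finset V) : Prop :=
  ∃ c : V → α, (∀ v ∈ S, c v ∈ L v) ∧ ∀ u ∈ S, ∀ v ∈ S, G.Adj u v → c u ≠ c v

theorem exists_critical {L : V → Finset α} (h : ¬ ColS G L univ) :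
    ∃ S : Finset V, ¬ ColS G L S ∧ ∀ S', S' ⊂ S → ColS G L S' := by
  have wf : WellFounded (fun a b : Finset V => a ⊂ b) := wellFounded_lt
  obtain ⟨S, hS, hmin⟩ := wf.has_min {S | ¬ ColS G L S} ⟨univ, h⟩
  exact ⟨S, hS, fun S' hS' => by_contra fun hcon => hmin S' hcon hS'⟩

/-- In a critical set every vertex has at least four neighbours. -/
theorem four_le_deg {L : V → Finset α} (hL : ∀ v, 4 ≤ (L v).card) {S : Finset V}
    (hS : ¬ ColS G L S) (hmin : ∀ S', S' ⊂ S → ColS G L S') {v : V} (hv : v ∈ S) :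
    4 ≤ (S.filter fun u => G.Adj v u).card := by
  by_contra hlt
  push Not at hlt
  obtain ⟨c, hc1, hc2⟩ := hmin (S.erase v) (Finset.erase_ssubset hv)
  obtain ⟨x, hx, hxn⟩ : ∃ x ∈ L v, x ∉ (S.filter fun u => G.Adj v u).image c := by
    by_contra hcon
    push Not at hcon
    have h1 : (L v).card ≤ ((S.filter fun u => G.Adj v u).image c).card :=
      Finset.card_le_card hcon
    have h2 := Finset.card_image_le (s := S.filter fun u => G.Adj v u) (f := c)
    have h3 := hL v
    omega
  apply hS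
  refine ⟨Function.update c v x, ?_, ?_⟩
  · intro u hu
    by_cases huv : u = v
    · rw [huv, Function.update_self]; exact hx
    · rw [Function.update_of_ne huv]; exact hc1 u (Finset.mem_erase.2 ⟨huv, hu⟩)
  · intro u hu w hw hadj
    by_cases huv : u = v
    · subst huv
      have hwu : w ≠ u := hadj.ne'
      rw [Function.update_self, Function.update_of_ne hwu]
      rintro rfl
      exact hxn (Finset.mem_image.2 ⟨w, by simp [hw, hadj], rfl⟩)
    · by_cases hwv : w = v
      · subst hwv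
        rw [Function.update_self, Function.update_of_ne huv]
        rintro rfl
        exact hxn (Finset.mem_image.2 ⟨u, by simp [hu, hadj.symm], rfl⟩)
      · rw [Function.update_of_ne huv, Function.update_of_ne hwv]
        exact hc2 u (Finset.mem_erase.2 ⟨huv, hu⟩) w (Finset.mem_erase.2 ⟨hwv, hw⟩) hadj

/-- A 4-cycle is colourable from lists with two colours. -/
theorem cycle4 (A B C D : Finset α) (hA : 2 ≤ A.card) (hB : 2 ≤ B.card) (hC : 2 ≤ C.card)
    (hD : 2 ≤ D.card) : ∃ a ∈ A, ∃ b ∈ B, ∃ c ∈ C, ∃ d ∈ D, a ≠ b ∧ b ≠ c ∧ c ≠ d ∧ d ≠ a := by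
  by_cases hAC : (A ∩ C).Nonempty
  · obtain ⟨x, hx⟩ := hAC
    rw [Finset.mem_inter] at hx
    obtain ⟨b, hb, hbx⟩ := Finset.exists_mem_ne (by omega : 1 < B.card) x
    obtain ⟨d, hd, hdx⟩ := Finset.exists_mem_ne (by omega : 1 < D.card) x
    exact ⟨x, hx.1, b, hb, x, hx.2, d, hd, hbx.symm, hbx, hdx.symm, hdx⟩
  · -- disjoint lists on opposite vertices
    have hdisj : ∀ x ∈ A, ∀ y ∈ C, x ≠ y := by
      intro x hx y hy hxy
      subst hxy
      exact hAC ⟨x, Finset.mem_inter.2 ⟨hx, hy⟩⟩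
    obtain ⟨a1, ha1, a2, ha2, ha⟩ := Finset.one_lt_card.1 (by omega : 1 < A.card)
    obtain ⟨c1, hc1, c2, hc2, hcc⟩ := Finset.one_lt_card.1 (by omega : 1 < C.card)
    -- a pair is bad for a list `E` if it exhausts `E`
    have good : ∀ E : Finset α, 2 ≤ E.card → ∀ x y : α, ¬ (E ⊆ {x, y}) →
        ∃ e ∈ E, x ≠ e ∧ e ≠ y := by
      intro E _ x y h
      obtain ⟨e, he, hne⟩ := Finset.not_subset.1 h
      simp only [Finset.mem_insert, Finset.mem_singleton, not_or] at hne
      exact ⟨e, he, Ne.symm hne.1, hne.2⟩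
    -- two different pairs cannot both exhaust `E`
    have uniq : ∀ E : Finset α, 2 ≤ E.card → ∀ x ∈ A, ∀ y ∈ C, ∀ x' ∈ A, ∀ y' ∈ C,
        E ⊆ {x, y} → E ⊆ {x', y'} → x = x' ∧ y = y' := by
      intro E hE x hx y hy x' hx' y' hy' h h'
      have e1 : E = {x, y} := Finset.eq_of_subset_of_card_le h (Finset.card_le_two.trans hE)
      have e2 : E = {x', y'} := Finset.eq_of_subset_of_card_le h' (Finset.card_le_two.trans hE)
      have hx2 : x ∈ ({x', y'} : Finset α) := by rw [← e2, e1]; simp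
      have hy2 : y ∈ ({x', y'} : Finset α) := by rw [← e2, e1]; simp
      simp only [Finset.mem_insert, Finset.mem_singleton] at hx2 hy2
      constructor
      · rcases hx2 with h | h
        · exact h
        · exact (hdisj x hx y' hy' h).elim
      · rcases hy2 with h | h
        · exact (hdisj x' hx' y hy h.symm).elim
        · exact h
    have main : ∃ x ∈ A, ∃ y ∈ C, ¬ (B ⊆ {x, y}) ∧ ¬ (D ⊆ {x, y}) := by
      by_contra hcon
      push Not at hcon
      -- three pairs, two lists
      have p1 : B ⊆ {a1, c1} ∨ D ⊆ {a1, c1} := by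
        by_cases h : B ⊆ {a1, c1}
        · exact Or.inl h
        · exact Or.inr (hcon a1 ha1 c1 hc1 h)
      have p2 : B ⊆ {a1, c2} ∨ D ⊆ {a1, c2} := by
        by_cases h : B ⊆ {a1, c2}
        · exact Or.inl h
        · exact Or.inr (hcon a1 ha1 c2 hc2 h)
      have p3 : B ⊆ {a2, c1} ∨ D ⊆ {a2, c1} := by
        by_cases h : B ⊆ {a2, c1}
        · exact Or.inl h
        · exact Or.inr (hcon a2 ha2 c1 hc1 h)
      rcases p1 with p1 | p1 <;> rcases p2 with p2 | p2 <;> rcases p3 with p3 | p3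
      · exact hcc (uniq B hB a1 ha1 c1 hc1 a1 ha1 c2 hc2 p1 p2).2
      · exact hcc (uniq B hB a1 ha1 c1 hc1 a1 ha1 c2 hc2 p1 p2).2
      · exact ha (uniq B hB a1 ha1 c1 hc1 a2 ha2 c1 hc1 p1 p3).1
      · exact ha (uniq D hD a1 ha1 c2 hc2 a2 ha2 c1 hc1 p2 p3).1
      · exact ha (uniq B hB a1 ha1 c2 hc2 a2 ha2 c1 hc1 p2 p3).1
      · exact ha (uniq D hD a1 ha1 c1 hc1 a2 ha2 c1 hc1 p1 p3).1
      · exact hcc (uniq D hD a1 ha1 c1 hc1 a1 ha1 c2 hc2 p1 p2).2
      · exact hcc (uniq D hD a1 ha1 c1 hc1 a1 ha1 c2 hc2 p1 p2).2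
    obtain ⟨x, hx, y, hy, hBn, hDn⟩ := main
    obtain ⟨b, hb, hxb, hby⟩ := good B hB x y hBn
    obtain ⟨d, hd, hxd, hdy⟩ := good D hD x y hDn
    exact ⟨x, hx, b, hb, y, hy, d, hd, hxb, hby, hdy.symm, hxd.symm⟩

/-- **Reducible configuration.** A critical set contains no chordless 4-cycle all of whose
vertices have exactly four neighbours. -/
theorem no_cycle4 {L : V → Finset α} (hL : ∀ v, 4 ≤ (L v).card) {S : Finset V}
    (hS : ¬ ColS G L S) (hmin : ∀ S', S' ⊂ S → ColS G L S') {a b c d : V}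
    (ha : a ∈ S) (hb : b ∈ S) (hc : c ∈ S) (hd : d ∈ S) (hac : a ≠ c) (hbd : b ≠ d)
    (hab : G.Adj a b) (hbc : G.Adj b c) (hcd : G.Adj c d) (hda : G.Adj d a)
    (nac : ¬ G.Adj a c) (nbd : ¬ G.Adj b d)
    (da : (S.filter fun u => G.Adj a u).card ≤ 4) (db : (S.filter fun u => G.Adj b u).card ≤ 4)
    (dc : (S.filter fun u => G.Adj c u).card ≤ 4) (dd : (S.filter fun u => G.Adj d u).card ≤ 4) :
    False := by
  set K : Finset V := {a, b, c, d} with hK
  have hKS : K ⊆ S := by
    intro x hx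
    simp only [hK, Finset.mem_insert, Finset.mem_singleton] at hx
    rcases hx with rfl | rfl | rfl | rfl <;> assumption
  obtain ⟨f, hf1, hf2⟩ := hmin (S \ K) (by
    refine Finset.sdiff_ssubset hKS ⟨a, by simp [hK]⟩)
  -- available colours
  let av : V → Finset α := fun v => L v \ ((S \ K).filter fun u => G.Adj v u).image f
  have avcard : ∀ v x y : V, x ∈ K → y ∈ K → x ≠ y → G.Adj v x → G.Adj v y →
      (S.filter fun u => G.Adj v u).card ≤ 4 → 2 ≤ (av v).card := by
    intro v x y hx hy hxy hvx hvy hdeg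
    have h1 : ((S \ K).filter fun u => G.Adj v u).card + 2 ≤ 4 := by
      refine le_trans ?_ hdeg
      have hsub : ((S \ K).filter fun u => G.Adj v u) ∪ {x, y} ⊆
          S.filter fun u => G.Adj v u := by
        intro u hu
        simp only [Finset.mem_union, Finset.mem_filter, Finset.mem_sdiff, Finset.mem_insert,
          Finset.mem_singleton] at hu ⊢
        rcases hu with ⟨⟨h, -⟩, h'⟩ | rfl | rfl
        · exact ⟨h, h'⟩
        · exact ⟨hKS hx, hvx⟩
        · exact ⟨hKS hy, hvy⟩
      have hdisj : Disjoint ((S \ K).filter fun u => G.Adj v u) {x, y} := by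
        rw [Finset.disjoint_left]
        intro u hu hu'
        simp only [Finset.mem_filter, Finset.mem_sdiff, Finset.mem_insert,
          Finset.mem_singleton] at hu hu'
        rcases hu' with rfl | rfl
        · exact hu.1.2 hx
        · exact hu.1.2 hy
      have := Finset.card_le_card hsub
      rwa [Finset.card_union_of_disjoint hdisj, Finset.card_pair hxy] at this
    have h2 := Finset.card_image_le (s := (S \ K).filter fun u => G.Adj v u) (f := f)
    have h3 := Finset.le_card_sdiff (((S \ K).filter fun u => G.Adj v u).image f) (L v)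
    have h4 := hL v
    show 2 ≤ (L v \ _).card
    omega
  have mK : a ∈ K ∧ b ∈ K ∧ c ∈ K ∧ d ∈ K := by simp [hK]
  obtain ⟨mKa, mKb, mKc, mKd⟩ := mK
  have cA := avcard a b d mKb mKd hbd hab hda.symm da
  have cB := avcard b a c mKa mKc hac hab.symm hbc db
  have cC := avcard c b d mKb mKd hbd hbc.symm hcd dc
  have cD := avcard d a c mKa mKc hac hda hcd.symm dd
  obtain ⟨xa, hxa, xb, hxb, xc, hxc, xd, hxd, hne1, hne2, hne3, hne4⟩ :=
    cycle4 (av a) (av b) (av c) (av d) cA cB cC cD
  let f' : V → α := fun v => if v = a then xa else if v = b then xb else if v = c then xc else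
    if v = d then xd else f v
  have nab := hab.ne
  have nbc := hbc.ne
  have ncd := hcd.ne
  have nda := hda.ne
  have fa : f' a = xa := by simp [f']
  have fb : f' b = xb := by simp [f', nab.symm]
  have fc : f' c = xc := by simp [f', hac.symm, nbc.symm]
  have fd : f' d = xd := by simp [f', nda, hbd.symm, ncd.symm]
  have fo : ∀ v, v ∉ K → f' v = f v := by
    intro v hv
    simp only [hK, Finset.mem_insert, Finset.mem_singleton, not_or] at hv
    simp [f', hv.1, hv.2.1, hv.2.2.1, hv.2.2.2]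
  have fav : ∀ v ∈ K, f' v ∈ av v := by
    intro v hv
    simp only [hK, Finset.mem_insert, Finset.mem_singleton] at hv
    rcases hv with rfl | rfl | rfl | rfl
    · rw [fa]; exact hxa
    · rw [fb]; exact hxb
    · rw [fc]; exact hxc
    · rw [fd]; exact hxd
  have cross : ∀ v ∈ K, ∀ u ∈ S, u ∉ K → G.Adj v u → f' v ≠ f' u := by
    intro v hv u hu huK hadj heq
    have h1 := fav v hv
    rw [heq, fo u huK] at h1
    exact (Finset.mem_sdiff.1 h1).2 (Finset.mem_image.2 ⟨u, by simp [hu, huK, hadj], rfl⟩)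
  have inside : ∀ v ∈ K, ∀ u ∈ K, G.Adj v u → f' v ≠ f' u := by
    intro v hv u hu hadj
    simp only [hK, Finset.mem_insert, Finset.mem_singleton] at hv hu
    rcases hv with rfl | rfl | rfl | rfl <;> rcases hu with rfl | rfl | rfl | rfl
    · exact (G.loopless.irrefl _ hadj).elim
    · rw [fa, fb]; exact hne1
    · exact (nac hadj).elim
    · rw [fa, fd]; exact hne4.symm
    · rw [fb, fa]; exact hne1.symm
    · exact (G.loopless.irrefl _ hadj).elim
    · rw [fb, fc]; exact hne2
    · exact (nbd hadj).elim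
    · exact (nac hadj.symm).elim
    · rw [fc, fb]; exact hne2.symm
    · exact (G.loopless.irrefl _ hadj).elim
    · rw [fc, fd]; exact hne3
    · rw [fd, fa]; exact hne4
    · exact (nbd hadj.symm).elim
    · rw [fd, fc]; exact hne3.symm
    · exact (G.loopless.irrefl _ hadj).elim
  apply hS
  refine ⟨f', ?_, ?_⟩
  · intro v hv
    by_cases hvK : v ∈ K
    · exact (Finset.mem_sdiff.1 (fav v hvK)).1
    · rw [fo v hvK]; exact hf1 v (Finset.mem_sdiff.2 ⟨hv, hvK⟩)
  · intro u hu v hv hadj
    by_cases huK : u ∈ K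
    · by_cases hvK : v ∈ K
      · exact inside u huK v hvK hadj
      · exact cross u huK v hv hvK hadj
    · by_cases hvK : v ∈ K
      · exact (cross v hvK u hu huK hadj.symm).symm
      · rw [fo u huK, fo v hvK]
        exact hf2 u (Finset.mem_sdiff.2 ⟨hu, huK⟩) v (Finset.mem_sdiff.2 ⟨hv, hvK⟩) hadj

end Pool.Agent.K7.H30.LP
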