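import Pool.Agent.K7.H30.LP.Cycles

/-!
Boundaries of regions have at least four edges; counting.
-/

namespace Pool.Agent.K7.H30.LP

open SimpleGraph Finset
open scoped Classical

variable {V : Type*} [Fintype V] {G : SimpleGraph V}

omit [Fintype V] in
theorem chGraph_adj_dart {z : C1 G} (d : G.Dart) :
    (chGraph z).Adj d.fst d.snd ↔ z (ed d) ≠ 0 :=
  ⟨fun ⟨_, h⟩ => h, fun h => ⟨d.adj, h⟩⟩

/-- In a cycle every vertex that is reached can be left by another edge. -/
theorem exists_next {z : C1 G} (hz : d1 G z = 0) {a b : V} (h : (chGraph z).Adj a b) :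
    ∃ c, c ≠ a ∧ (chGraph z).Adj b c := by
  by_contra hcon
  push Not at hcon
  obtain ⟨hG, hne⟩ := h.symm
  have h1 := congrFun hz b
  rw [d1_apply, Finset.sum_eq_single (⟨(b, a), hG⟩ : G.Dart)] at h1
  · exact hne h1
  · intro d hd hda
    simp only [Finset.mem_filter, Finset.mem_univ, true_and] at hd
    by_contra hzd
    have h2 := (chGraph_adj_dart d).2 hzd
    rw [hd] at h2
    by_cases hs : d.snd = a
    · apply hda
      apply Dart.ext
      exact Prod.ext hd hs
    · exact hcon _ hs h2
  · intro h3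
    exact (h3 (by simp)).elim

theorem card_supp_eq (z : C1 G) :
    (univ.filter fun e : G.edgeSet => z e ≠ 0).card = (chGraph z).edgeFinset.card := by
  refine Finset.card_bij (fun e _ => (e : Sym2 V)) ?_ ?_ ?_
  · intro e he
    rw [mem_edgeFinset]
    have := (chGraph_adj_dart (z := z) (dartOf e)).2
      (by rw [ed_dartOf]; exact (Finset.mem_filter.1 he).2)
    have h2 : (e : Sym2 V) = s((dartOf e).fst, (dartOf e).snd) := by
      conv_lhs => rw [← ed_dartOf e]
      rfl
    rw [h2]
    exact this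
  · intro e _ e' _ h
    exact Subtype.ext h
  · intro e he
    obtain ⟨h, hz⟩ := chGraph_edge (mem_edgeFinset.1 he)
    exact ⟨⟨e, h⟩, by simp [hz], rfl⟩

/-- No triangles. -/
def NoTriangle (G : SimpleGraph V) : Prop := ∀ a b c, G.Adj a b → G.Adj b c → G.Adj c a → False

theorem four_edges (hT : NoTriangle G) {z : C1 G} (hz : d1 G z = 0) (hne : z ≠ 0) :
    4 ≤ (univ.filter fun e : G.edgeSet => z e ≠ 0).card ∧
    ((univ.filter fun e : G.edgeSet => z e ≠ 0).card = 4 →
      ∃ a b c d : V, a ≠ c ∧ b ≠ d ∧ (chGraph z).Adj a b ∧ (chGraph z).Adj b c ∧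
        (chGraph z).Adj c d ∧ (chGraph z).Adj d a) := by
  obtain ⟨e0, he0⟩ : ∃ e, z e ≠ 0 := by
    by_contra hcon
    push Not at hcon
    exact hne (funext hcon)
  obtain ⟨a, b, hab⟩ : ∃ a b, (chGraph z).Adj a b :=
    ⟨_, _, (chGraph_adj_dart (z := z) (dartOf e0)).2 (by rw [ed_dartOf]; exact he0)⟩
  obtain ⟨c, hca, hbc⟩ := exists_next hz hab
  obtain ⟨d, hdb, hcd⟩ := exists_next hz hbc
  obtain ⟨e, hec, hde⟩ := exists_next hz hcd
  have hda : d ≠ a := by
    rintro rfl
    exact hT d b c (chGraph_le z hab) (chGraph_le z hbc) (chGraph_le z hcd)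
  have nab := hab.ne
  have nbc := hbc.ne
  have ncd := hcd.ne
  have nde := hde.ne
  set F : Finset (Sym2 V) := {s(a, b), s(b, c), s(c, d), s(d, e)} with hF
  have hFsub : F ⊆ (chGraph z).edgeFinset := by
    intro x hx
    rw [mem_edgeFinset]
    simp only [hF, Finset.mem_insert, Finset.mem_singleton] at hx
    rcases hx with rfl | rfl | rfl | rfl
    · exact hab
    · exact hbc
    · exact hcd
    · exact hde
  have hFcard : F.card = 4 := by
    rw [hF, Finset.card_insert_of_notMem, Finset.card_insert_of_notMem,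
      Finset.card_insert_of_notMem, Finset.card_singleton]
    · simp only [Finset.mem_singleton, Sym2.eq_iff]
      rintro (⟨h1, h2⟩ | ⟨h1, h2⟩)
      · exact ncd h1
      · exact hec h1.symm
    · simp only [Finset.mem_insert, Finset.mem_singleton, Sym2.eq_iff]
      rintro ((⟨h1, h2⟩ | ⟨h1, h2⟩) | (⟨h1, h2⟩ | ⟨h1, h2⟩))
      · exact nbc h1
      · exact hdb h1.symm
      · exact hdb h1.symm
      · exact ncd h2
    · simp only [Finset.mem_insert, Finset.mem_singleton, Sym2.eq_iff]
      rintro ((⟨h1, h2⟩ | ⟨h1, h2⟩) | (⟨h1, h2⟩ | ⟨h1, h2⟩) | (⟨h1, h2⟩ | ⟨h1, h2⟩))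
      · exact nab h1
      · exact hca h1.symm
      · exact hca h1.symm
      · exact hda h1.symm
      · exact hda h1.symm
      · exact hdb h2.symm
  rw [card_supp_eq]
  refine ⟨hFcard ▸ Finset.card_le_card hFsub, fun h4 => ?_⟩
  have hFeq : F = (chGraph z).edgeFinset := Finset.eq_of_subset_of_card_le hFsub (by omega)
  obtain ⟨x, hxb, hax⟩ := exists_next hz hab.symm
  have hmem : s(a, x) ∈ F := by
    rw [hFeq, mem_edgeFinset]
    exact hax
  simp only [hF, Finset.mem_insert, Finset.mem_singleton, Sym2.eq_iff] at hmem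
  have hea : e = a := by
    rcases hmem with (⟨h1, h2⟩ | ⟨h1, h2⟩) | (⟨h1, h2⟩ | ⟨h1, h2⟩) | (⟨h1, h2⟩ | ⟨h1, h2⟩) |
      (⟨h1, h2⟩ | ⟨h1, h2⟩)
    · exact (hxb h2).elim
    · exact (nab h1).elim
    · exact (nab h1).elim
    · exact (hca h1.symm).elim
    · exact (hca h1.symm).elim
    · exact (hda h1.symm).elim
    · exact (hda h1.symm).elim
    · exact h1.symm
  subst hea
  exact ⟨e, b, c, d, hca.symm, hdb.symm, hab, hbc, hcd, hde⟩

/-- Number of neighbours in `S`. -/
noncomputable def dg (G : SimpleGraph V) (S : Finset V) (v : V) : ℕ :=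
  (univ.filter fun d : G.Dart => d.fst = v ∧ d.snd ∈ S).card

theorem dg_eq (S : Finset V) (v : V) : dg G S v = (S.filter fun u => G.Adj v u).card := by
  unfold dg
  refine Finset.card_bij (fun d _ => d.snd) ?_ ?_ ?_
  · intro d hd
    simp only [Finset.mem_filter, Finset.mem_univ, true_and] at hd ⊢
    exact ⟨hd.2, hd.1 ▸ d.adj⟩
  · intro d hd d' hd' h
    simp only [Finset.mem_filter, Finset.mem_univ, true_and] at hd hd'
    exact Dart.ext _ _ (Prod.ext (hd.1.trans hd'.1.symm) h)
  · intro u hu
    simp only [Finset.mem_filter] at hu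
    exact ⟨⟨(v, u), hu.2⟩, by simp [hu.1], rfl⟩

theorem handshake (S : Finset V) : ∑ v ∈ S, dg G S v = 2 * (inner G S).card := by
  have h1 : ∑ v ∈ S, dg G S v =
      ∑ d : G.Dart, if d.fst ∈ S ∧ d.snd ∈ S then 1 else 0 := by
    rw [← Finset.sum_fiberwise (s := univ) (g := fun d : G.Dart => d.fst)]
    rw [← Finset.sum_filter_add_sum_filter_not univ (fun v => v ∈ S)
      (f := fun v => ∑ d ∈ univ.filter (fun d : G.Dart => d.fst = v),
        if d.fst ∈ S ∧ d.snd ∈ S then 1 else 0)]
    rw [Finset.sum_eq_zero (s := univ.filter fun v => ¬ v ∈ S), add_zero]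
    · rw [Finset.filter_mem_eq_inter, Finset.univ_inter]
      refine Finset.sum_congr rfl fun v hv => ?_
      unfold dg
      rw [Finset.card_filter, Finset.sum_filter]
      refine Finset.sum_congr rfl fun d _ => ?_
      by_cases h : d.fst = v
      · subst h; simp [hv]
      · simp [h]
    · intro v hv
      simp only [Finset.mem_filter, Finset.mem_univ, true_and] at hv
      refine Finset.sum_eq_zero fun d hd => ?_
      rw [if_neg]
      rintro ⟨h, -⟩
      rw [(Finset.mem_filter.1 hd).2] at h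
      exact hv h
  rw [h1, sum_darts]
  unfold inner
  rw [Finset.card_filter, Finset.mul_sum]
  refine Finset.sum_congr rfl fun e _ => ?_
  by_cases h : (dartOf e).fst ∈ S ∧ (dartOf e).snd ∈ S
  · have h' : (dartOf e).symm.fst ∈ S ∧ (dartOf e).symm.snd ∈ S := ⟨h.2, h.1⟩
    rw [if_pos h, if_pos h', mul_one]
  · have h' : ¬ ((dartOf e).symm.fst ∈ S ∧ (dartOf e).symm.snd ∈ S) :=
      fun h'' => h ⟨h''.2, h''.1⟩
    rw [if_neg h, if_neg h', mul_zero, add_zero]

namespace Rotation

variable (R : Rotation G)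

theorem rb_mem (T : Finset G.edgeSet) (q : R.Region T) : R.rb T q ∈ LinearMap.range R.d2 :=
  ⟨_, rfl⟩

theorem d1_rb (T : Finset G.edgeSet) (q : R.Region T) : d1 G (R.rb T q) = 0 := R.d1_d2 _

theorem rb_ed (T : Finset G.edgeSet) (q : R.Region T) (d : G.Dart) :
    R.rb T q (ed d) = (if R.reg T d = q then 1 else 0) + (if R.reg T d.symm = q then 1 else 0) := by
  unfold rb
  rw [R.d2_ed]
  rfl

theorem rb_ne {T : Finset G.edgeSet} {q : R.Region T} {d : G.Dart} (h : R.rb T q (ed d) ≠ 0) :
    ed d ∈ T ∧ (q = R.reg T d ∨ q = R.reg T d.symm) := by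
  rw [R.rb_ed] at h
  constructor
  · by_contra hT
    apply h
    rw [R.reg_symm hT]
    exact CharTwo.add_self_eq_zero _
  · by_contra hcon
    push Not at hcon
    apply h
    rw [if_neg (Ne.symm hcon.1), if_neg (Ne.symm hcon.2), add_zero]

/-- Number of edges on the boundary of a region. -/
noncomputable def bl (T : Finset G.edgeSet) (q : R.Region T) : ℕ :=
  (univ.filter fun e : G.edgeSet => R.rb T q e ≠ 0).card

theorem sum_bl (T : Finset G.edgeSet) : ∑ q, R.bl T q ≤ 2 * T.card := by
  unfold bl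
  simp only [Finset.card_filter]
  rw [Finset.sum_comm, ← Finset.sum_filter_add_sum_filter_not univ (fun e => e ∈ T)]
  rw [Finset.sum_eq_zero (s := univ.filter fun e => ¬ e ∈ T), add_zero]
  · rw [Finset.filter_mem_eq_inter, Finset.univ_inter, Nat.mul_comm, ← smul_eq_mul,
      ← Finset.sum_const]
    refine Finset.sum_le_sum fun e he => ?_
    rw [← Finset.card_filter]
    have h1 : (univ.filter fun q : R.Region T => R.rb T q e ≠ 0) ⊆
        {R.reg T (dartOf e), R.reg T (dartOf e).symm} := by
      intro q hq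
      have hq' := (Finset.mem_filter.1 hq).2
      rw [← ed_dartOf e] at hq'
      have := (R.rb_ne hq').2
      simpa using this
    exact (Finset.card_le_card h1).trans Finset.card_le_two
  · intro e he
    have he' := (Finset.mem_filter.1 he).2
    refine Finset.sum_eq_zero fun q _ => ?_
    rw [if_neg]
    intro h
    rw [← ed_dartOf e] at h
    have := (R.rb_ne h).1
    rw [ed_dartOf] at this
    exact he' this

theorem four_le_bl (hT : NoTriangle G) {T : Finset G.edgeSet} {q : R.Region T}
    (hq : R.rb T q ≠ 0) : 4 ≤ R.bl T q :=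
  (four_edges hT (R.d1_rb T q) hq).1

/-- Few regions touch a given vertex. -/
theorem card_touch (S : Finset V) (v : V) :
    (univ.filter fun q : R.Region (inner G S) =>
      ∃ u, (chGraph (R.rb (inner G S) q)).Adj v u).card ≤ 2 * dg G S v := by
  set D := univ.filter fun d : G.Dart => d.fst = v ∧ d.snd ∈ S with hD
  have h1 : (univ.filter fun q : R.Region (inner G S) =>
      ∃ u, (chGraph (R.rb (inner G S) q)).Adj v u) ⊆
      D.image (R.reg (inner G S)) ∪ D.image (fun d => R.reg (inner G S) d.symm) := by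
    intro q hq
    obtain ⟨u, hadj, hne⟩ := (Finset.mem_filter.1 hq).2
    obtain ⟨hin, hor⟩ := R.rb_ne hne
    have hmem := (mem_inner (S := S) (⟨(v, u), hadj⟩ : G.Dart)).1 hin
    rw [Finset.mem_union]
    rcases hor with h | h
    · left
      exact Finset.mem_image.2 ⟨_, by simp [hD, hmem.2], h.symm⟩
    · right
      exact Finset.mem_image.2 ⟨_, by simp [hD, hmem.2], h.symm⟩
  refine (Finset.card_le_card h1).trans ((Finset.card_union_le _ _).trans ?_)
  have h2 := Finset.card_image_le (s := D) (f := R.reg (inner G S))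
  have h3 := Finset.card_image_le (s := D) (f := fun d => R.reg (inner G S) d.symm)
  have h4 : D.card = dg G S v := rfl
  omega

end Rotation

end Pool.Agent.K7.H30.LP
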