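import Pool.Agent.K7.H30.LP.Regions

/-!
Chains of walks; contractible closed walks are boundaries; short cycles.
-/

namespace Pool.Agent.K7.H30.LP

open SimpleGraph Finset
open scoped Classical

variable {V : Type*} [Fintype V] {G : SimpleGraph V}

/-- The chain of a walk. -/
noncomputable def ch {u v : V} (p : G.Walk u v) : C1 G :=
  (p.darts.map fun d => (Pi.single (ed d) 1 : C1 G)).sum

omit [Fintype V] in
@[simp] theorem ch_nil {u : V} : ch (Walk.nil : G.Walk u u) = 0 := rfl

omit [Fintype V] in
theorem ch_cons {u v w : V} (h : G.Adj u v) (p : G.Walk v w) :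
    ch (Walk.cons h p) = Pi.single (ed ⟨(u, v), h⟩) 1 + ch p := by
  simp [ch]

omit [Fintype V] in
theorem ch_append {u v w : V} (p : G.Walk u v) (q : G.Walk v w) :
    ch (p.append q) = ch p + ch q := by
  simp [ch, Walk.darts_append]

namespace Rotation

variable (R : Rotation G)

theorem face_mem_periodicPts (d : G.Dart) : d ∈ Function.periodicPts R.face :=
  Function.Injective.mem_periodicPts R.face.injective d

theorem faceLength_pos (d : G.Dart) : 0 < R.faceLength d :=
  Function.minimalPeriod_pos_of_mem_periodicPts (R.face_mem_periodicPts d)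

theorem orbit_eq (d : G.Dart) :
    (range (R.faceLength d)).image (fun i => R.face^[i] d) =
      univ.filter (fun d' => R.fc d' = R.fc d) := by
  ext d'
  simp only [Finset.mem_image, Finset.mem_range, Finset.mem_filter, Finset.mem_univ, true_and]
  constructor
  · rintro ⟨i, -, rfl⟩
    rw [R.fc_eq_iff]
    exact Equiv.Perm.SameCycle.symm ⟨i, by rw [zpow_natCast, Equiv.Perm.coe_pow]⟩
  · intro h
    rw [R.fc_eq_iff] at h
    obtain ⟨n, hn⟩ := h.symm.exists_nat_pow_eq
    refine ⟨n % R.faceLength d, Nat.mod_lt _ (R.faceLength_pos d), ?_⟩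
    unfold faceLength
    rw [Function.iterate_mod_minimalPeriod_eq, ← Equiv.Perm.coe_pow, hn]

theorem orbit_injOn (d : G.Dart) :
    Set.InjOn (fun i => R.face^[i] d) (range (R.faceLength d) : Set ℕ) := by
  intro i hi j hj h
  simp only [Finset.coe_range, Set.mem_Iio] at hi hj
  exact Function.iterate_injOn_Iio_minimalPeriod hi hj h

theorem card_fiber (d : G.Dart) :
    (univ.filter (fun d' => R.fc d' = R.fc d)).card = R.faceLength d := by
  rw [← R.orbit_eq, Finset.card_image_of_injOn (R.orbit_injOn d), Finset.card_range]

theorem sum_single_apply (s : Finset G.Dart) (e : G.edgeSet) :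
    (∑ d ∈ s, (Pi.single (ed d) 1 : C1 G)) e =
      (if dartOf e ∈ s then 1 else 0) + (if (dartOf e).symm ∈ s then 1 else 0) := by
  rw [Finset.sum_apply]
  have h1 : ∀ d : G.Dart, (Pi.single (ed d) 1 : C1 G) e =
      (if d = dartOf e then 1 else 0) + (if d = (dartOf e).symm then 1 else 0) := by
    intro d
    rw [Pi.single_apply]
    by_cases h : ed d = e
    · rw [if_pos h.symm]
      rcases (ed_eq_iff' d e).1 h with h | h
      · rw [if_pos h, if_neg (by rw [h]; exact symm_ne _), add_zero]
      · rw [if_pos h, if_neg (by rw [h]; exact (symm_ne _).symm), zero_add]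
    · rw [if_neg (Ne.symm h), if_neg, if_neg, add_zero]
      · rintro rfl; exact h (by simp)
      · rintro rfl; exact h (by simp)
  simp only [h1, Finset.sum_add_distrib, Finset.sum_ite_eq']

/-- The boundary of one face is the chain of its facial walk. -/
theorem ch_facial {u : V} (d : G.Dart) (p : G.Walk u u) (hp : p.darts = R.facialDarts d) :
    ch p = R.d2 (fun F => if F = R.fc d then 1 else 0) := by
  have h1 : ch p = ∑ d' ∈ univ.filter (fun d' => R.fc d' = R.fc d),
      (Pi.single (ed d') 1 : C1 G) := by
    rw [← R.orbit_eq, Finset.sum_image (fun i hi j hj h => R.orbit_injOn d hi hj h)]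
    unfold ch
    rw [hp, facialDarts, List.map_map, ← List.sum_toFinset]
    · congr 1
      ext i
      simp
    · exact List.nodup_range
  rw [h1]
  ext e
  rw [sum_single_apply, R.d2_apply]
  simp

theorem ch_homotopic {u v : V} {p q : G.Walk u v} (h : R.Homotopic p q) :
    ch p + ch q ∈ LinearMap.range R.d2 := by
  induction h with
  | refl p => rw [add_self_fun]; exact zero_mem _
  | symm _ ih => rw [add_comm]; exact ih
  | @trans u v p q r _ _ ih1 ih2 =>
    have : ch p + ch r = (ch p + ch q) + (ch q + ch r) := by
      rw [add_assoc, ← add_assoc (ch q), add_self_fun, zero_add]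
    rw [this]
    exact add_mem ih1 ih2
  | @append u v w p p' q q' _ _ ih1 ih2 =>
    rw [ch_append, ch_append]
    have : ch p + ch q + (ch p' + ch q') = (ch p + ch p') + (ch q + ch q') := by abel
    rw [this]
    exact add_mem ih1 ih2
  | @backtrack u v h =>
    rw [ch_cons, ch_cons, ch_nil, add_zero, add_zero]
    have : ed (⟨(v, u), h.symm⟩ : G.Dart) = ed ⟨(u, v), h⟩ := by
      have := ed_symm (⟨(u, v), h⟩ : G.Dart)
      exact this
    rw [this, add_self_fun]
    exact zero_mem _
  | facial d p hp =>
    rw [ch_nil, add_zero, R.ch_facial d p hp]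
    exact ⟨_, rfl⟩

theorem ch_contractible {v : V} {p : G.Walk v v} (h : R.Contractible p) :
    ch p ∈ LinearMap.range R.d2 := by
  have := R.ch_homotopic h
  rwa [ch_nil, add_zero] at this

/-- In an even-faced graph, boundaries have even size. -/
theorem sum_range_d2 (hE : R.EvenFaced) {z : C1 G} (hz : z ∈ LinearMap.range R.d2) :
    ∑ e, z e = 0 := by
  obtain ⟨f, rfl⟩ := hz
  have h1 : ∑ e, R.d2 f e = ∑ d : G.Dart, f (R.fc d) := by
    rw [sum_darts]
    rfl
  rw [h1, ← Finset.sum_fiberwise (s := univ) (g := fun d : G.Dart => R.fc d)]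
  refine Finset.sum_eq_zero fun F _ => ?_
  obtain ⟨d, rfl⟩ := R.exists_fc F
  rw [Finset.sum_congr rfl (g := fun _ => f (R.fc d))
    (fun d' hd' => by rw [(Finset.mem_filter.1 hd').2]), Finset.sum_const, R.card_fiber]
  obtain ⟨k, hk⟩ := hE d
  rw [hk, add_smul]
  exact CharTwo.add_self_eq_zero _

end Rotation

/-- The boundary of the chain of a walk. -/
theorem d1_ch {u v : V} (p : G.Walk u v) :
    d1 G (ch p) = Pi.single u 1 + Pi.single v 1 := by
  induction p with
  | nil => rw [ch_nil, map_zero, add_self_fun]
  | @cons u w v h p ih =>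
    rw [ch_cons, map_add, d1_single, ih]
    have : (Pi.single w 1 : V → ZMod 2) + Pi.single w 1 = 0 := add_self_fun _
    show Pi.single u 1 + Pi.single w 1 + (Pi.single w 1 + Pi.single v 1) = _
    rw [add_assoc, ← add_assoc (Pi.single w 1 : V → ZMod 2), this, zero_add]

omit [Fintype V] in
theorem ch_apply {u v : V} (p : G.Walk u v) (e : G.edgeSet) :
    ch p e = ((p.edges.count (e : Sym2 V) : ℕ) : ZMod 2) := by
  induction p with
  | nil => simp
  | @cons u w v h p ih =>
    rw [ch_cons, Pi.add_apply, ih, Walk.edges_cons, List.count_cons, Nat.cast_add, add_comm]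
    congr 1
    rw [Pi.single_apply]
    by_cases h' : e = ed ⟨(u, w), h⟩
    · rw [if_pos h', h']
      simp [ed]
    · rw [if_neg h', if_neg]
      · simp
      · intro h2
        apply h'
        apply Subtype.ext
        simpa [ed] using (beq_iff_eq.1 h2).symm

/-- The graph of a chain. -/
def chGraph (z : C1 G) : SimpleGraph V where
  Adj u v := ∃ h : G.Adj u v, z (ed ⟨(u, v), h⟩) ≠ 0
  symm := ⟨by
    rintro u v ⟨h, hz⟩
    refine ⟨h.symm, ?_⟩
    have : ed (⟨(v, u), h.symm⟩ : G.Dart) = ed ⟨(u, v), h⟩ := ed_symm (⟨(u, v), h⟩ : G.Dart)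
    rwa [this]⟩
  loopless := ⟨by
    rintro u ⟨h, -⟩
    exact G.loopless.irrefl u h⟩

omit [Fintype V] in
theorem chGraph_le (z : C1 G) : chGraph z ≤ G := fun _ _ h => h.1

omit [Fintype V] in
theorem chGraph_edge {z : C1 G} {e : Sym2 V} (he : e ∈ (chGraph z).edgeSet) :
    ∃ h : e ∈ G.edgeSet, z ⟨e, h⟩ ≠ 0 := by
  induction e using Sym2.ind with
  | _ x y =>
    obtain ⟨h, hz⟩ := he
    exact ⟨h, hz⟩

/-- A nonzero cycle contains a simple cycle. -/
theorem exists_isCycle {z : C1 G} (hz : d1 G z = 0) (hne : z ≠ 0) :
    ∃ (v : V) (p : G.Walk v v), p.IsCycle ∧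
      ∀ e : G.edgeSet, (e : Sym2 V) ∈ p.edges → z e ≠ 0 := by
  obtain ⟨e0, he0⟩ : ∃ e, z e ≠ 0 := by
    by_contra hcon
    push Not at hcon
    exact hne (funext hcon)
  set d := dartOf e0 with hd
  have hed : ed d = e0 := ed_dartOf e0
  have hadj : (chGraph z).Adj d.fst d.snd := ⟨d.adj, by rw [← hed] at he0; exact he0⟩
  have hreach : ((chGraph z).deleteEdges {s(d.fst, d.snd)}).Reachable d.fst d.snd := by
    by_contra hr
    let χ : V → ZMod 2 := fun v =>
      if ((chGraph z).deleteEdges {s(d.fst, d.snd)}).Reachable d.fst v then 1 else 0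
    have h1 := pair_d1 z χ
    rw [hz] at h1
    simp only [Pi.zero_apply, mul_zero, Finset.sum_const_zero] at h1
    rw [Finset.sum_eq_single e0] at h1
    · have ha : χ (dartOf e0).fst = 1 := by
        simp only [χ]
        rw [if_pos]
        rw [← hd]
      have hb : χ (dartOf e0).snd = 0 := by
        simp only [χ]
        rw [if_neg]
        rw [← hd]; exact hr
      rw [ha, hb, add_zero, one_mul] at h1
      exact he0 h1.symm
    · intro e _ hee
      by_cases hze : z e = 0
      · rw [hze, mul_zero]
      · have hadj2 : ((chGraph z).deleteEdges {s(d.fst, d.snd)}).Adj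
            (dartOf e).fst (dartOf e).snd := by
          rw [deleteEdges_adj]
          refine ⟨⟨(dartOf e).adj, ?_⟩, ?_⟩
          · have : ed (dartOf e) = e := ed_dartOf e
            rw [← this] at hze
            exact hze
          · intro hmem
            apply hee
            rw [← ed_dartOf e, ← hed]
            apply Subtype.ext
            exact hmem
        have hχ : χ (dartOf e).fst = χ (dartOf e).snd := by
          simp only [χ]
          by_cases h3 : ((chGraph z).deleteEdges {s(d.fst, d.snd)}).Reachable d.fst (dartOf e).fst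
          · rw [if_pos h3, if_pos (h3.trans hadj2.reachable)]
          · rw [if_neg h3, if_neg]
            intro h4
            exact h3 (h4.trans hadj2.symm.reachable)
        rw [hχ, CharTwo.add_self_eq_zero, zero_mul]
    · intro h; exact (h (Finset.mem_univ _)).elim
  obtain ⟨u, p, hp, -⟩ := adj_and_reachable_delete_edges_iff_exists_cycle.1 ⟨hadj, hreach⟩
  refine ⟨u, p.mapLe (chGraph_le z), (Walk.isCycle_mapLe _).2 hp, ?_⟩
  intro e he
  rw [Walk.edges_mapLe_eq_edges] at he
  obtain ⟨h, hz'⟩ := chGraph_edge (p.edges_subset_edgeSet he)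
  exact hz'

omit [Fintype V] in
theorem length_le_of_isCycle {v : V} {p : G.Walk v v} (hp : p.IsCycle) {S : Finset V}
    (hS : ∀ x ∈ p.support, x ∈ S) : p.length ≤ S.card := by
  have h1 : p.support.tail.length = p.length := by simp
  rw [← h1, ← List.toFinset_card_of_nodup hp.support_nodup]
  refine Finset.card_le_card fun x hx => ?_
  exact hS x (List.mem_of_mem_tail (List.mem_toFinset.1 hx))

namespace Rotation

variable (R : Rotation G)

/-- If all short cycles are contractible, then all cycles supported in small vertex sets are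
boundaries. -/
theorem cyc_le {N : ℕ} (hyp : ∀ (v : V) (p : G.Walk v v), p.IsCycle → p.length < N →
    R.Contractible p) {S : Finset V} (hS : S.card < N) :
    cyc (inner G S) ≤ LinearMap.range R.d2 := by
  have key : ∀ n : ℕ, ∀ z : C1 G, z ∈ cyc (inner G S) →
      (univ.filter fun e => z e ≠ 0).card = n → z ∈ LinearMap.range R.d2 := by
    intro n
    induction n using Nat.strong_induction_on with
    | _ n ih =>
      intro z hz hn
      by_cases h0 : z = 0
      · rw [h0]; exact zero_mem _
      obtain ⟨v, p, hp, hpz⟩ := exists_isCycle (z := z) hz.1 h0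
      have hsupp : ∀ x ∈ p.support, x ∈ S := by
        intro x hx
        obtain ⟨e, he, hxe⟩ : ∃ e ∈ p.edges, x ∈ e := by
          have hnn : ¬ p.Nil := hp.not_nil
          exact (Walk.mem_support_iff_exists_mem_edges_of_not_nil hnn).1 hx
        have heG := p.edges_subset_edgeSet he
        have hze := hpz ⟨e, heG⟩ he
        have hin : (⟨e, heG⟩ : G.edgeSet) ∈ inner G S := by
          by_contra hcon
          exact hze (hz.2 _ hcon)
        induction e using Sym2.ind with
        | _ a b =>
          have := (mem_inner (S := S) (⟨(a, b), heG⟩ : G.Dart)).1 hin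
          rcases Sym2.mem_iff.1 hxe with rfl | rfl
          · exact this.1
          · exact this.2
      have hlen : p.length < N := lt_of_le_of_lt (length_le_of_isCycle hp hsupp) hS
      have hB := R.ch_contractible (hyp v p hp hlen)
      have hch : ∀ e : G.edgeSet, ch p e = if (e : Sym2 V) ∈ p.edges then 1 else 0 := by
        intro e
        rw [ch_apply]
        by_cases he : (e : Sym2 V) ∈ p.edges
        · rw [if_pos he, List.count_eq_one_of_mem hp.edges_nodup he, Nat.cast_one]
        · rw [if_neg he, List.count_eq_zero_of_not_mem he, Nat.cast_zero]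
      have hlt : (univ.filter fun e => (z + ch p) e ≠ 0).card < n := by
        rw [← hn]
        refine Finset.card_lt_card ?_
        rw [Finset.ssubset_iff_of_subset]
        · -- an edge of the cycle disappears
          obtain ⟨e, he⟩ : ∃ e, e ∈ p.edges := by
            have := hp.three_le_length
            have hl : p.edges.length = p.length := p.length_edges
            obtain ⟨e, he⟩ := List.exists_mem_of_length_pos (l := p.edges) (by omega)
            exact ⟨e, he⟩
          have heG := p.edges_subset_edgeSet he
          refine ⟨⟨e, heG⟩, ?_, ?_⟩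
          · simp [hpz ⟨e, heG⟩ he]
          · simp only [Finset.mem_filter, Finset.mem_univ, true_and, not_not, Pi.add_apply]
            rw [hch, if_pos he]
            have h1 : z ⟨e, heG⟩ = 1 := by
              have := hpz ⟨e, heG⟩ he
              revert this
              generalize z ⟨e, heG⟩ = a
              revert a
              decide
            rw [h1]
            decide
        · intro e he
          simp only [Finset.mem_filter, Finset.mem_univ, true_and] at he ⊢
          intro h0
          apply he
          rw [Pi.add_apply, h0, hch, if_neg, add_zero]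
          intro hmem
          exact hpz e hmem h0
      have hz' : z + ch p ∈ cyc (inner G S) := by
        refine ⟨?_, ?_⟩
        · show d1 G (z + ch p) = 0
          rw [map_add, d1_ch, add_self_fun, add_zero]
          exact hz.1
        · intro e he
          rw [Pi.add_apply, hz.2 e he, hch, if_neg, add_zero]
          intro hmem
          exact hpz e hmem (hz.2 e he)
      have h2 := ih _ hlt _ hz' rfl
      have h3 : z = (z + ch p) + ch p := by rw [add_assoc, add_self_fun, add_zero]
      rw [h3]
      exact add_mem h2 hB
  intro z hz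
  exact key _ z hz rfl

end Rotation

end Pool.Agent.K7.H30.LP
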