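import Mathlib

/-!
Rotation systems (embeddings in closed orientable surfaces) of simple graphs, facial walks,
Euler characteristic, homotopy of walks.
-/

namespace Pool.Agent.K7.H30.LP

open SimpleGraph

variable {V : Type*} {G : SimpleGraph V}

/-- A rotation system of the simple graph `G`: a permutation of the darts of `G` which, for every
vertex `v`, permutes the darts starting at `v` cyclically. By the theorem of Heffter, Edmonds and
Ringel these are the same as the cellular embeddings of `G` in closed oriented surfaces. -/
structure Rotation {V : Type*} (G : SimpleGraph V) where
  next : Equiv.Perm G.Dart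
  next_fst : ∀ d : G.Dart, (next d).fst = d.fst
  cyclic : ∀ d e : G.Dart, d.fst = e.fst → next.SameCycle d e

/-- Reversal of darts. -/
def rev (G : SimpleGraph V) : Equiv.Perm G.Dart :=
  ⟨Dart.symm, Dart.symm, Dart.symm_symm, Dart.symm_symm⟩

@[simp] theorem rev_apply (d : G.Dart) : rev G d = d.symm := rfl

namespace Rotation

variable (R : Rotation G)

/-- The face permutation: after the dart `d` from `u` to `v`, the facial walk continues with the
dart which follows `(v, u)` in the rotation at `v`. -/
def face : Equiv.Perm G.Dart := R.next * rev G

@[simp] theorem face_apply (d : G.Dart) : R.face d = R.next d.symm := rfl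

/-- The faces of the embedding: the orbits of the face permutation. -/
abbrev Face : Type _ := Quotient (Equiv.Perm.SameCycle.setoid R.face)

/-- The length of the facial walk through the dart `d`. -/
noncomputable def faceLength (d : G.Dart) : ℕ := Function.minimalPeriod R.face d

/-- The darts of the facial walk which starts with the dart `d`. -/
noncomputable def facialDarts (d : G.Dart) : List G.Dart :=
  (List.range (R.faceLength d)).map fun i => R.face^[i] d

/-- All facial walks have even length. -/
def EvenFaced : Prop := ∀ d : G.Dart, Even (R.faceLength d)

/-- The number of faces: the orbits of the face permutation, and for every isolated vertex (a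
component without darts) its one facial walk of length zero. -/
noncomputable def faceCount : ℕ := Nat.card R.Face + Nat.card {v : V // ∀ w, ¬ G.Adj v w}

/-- Twice the genus of the embedding, that is the sum of the numbers `2 - (V - E + F)` of the
connected components of `G`. For a connected graph it is `2 - (V - E + F)`. -/
noncomputable def twiceGenus : ℤ :=
  2 * (Nat.card G.ConnectedComponent : ℤ) -
    ((Nat.card V : ℤ) - (Nat.card G.edgeSet : ℤ) + (R.faceCount : ℤ))

/-- Homotopy (with fixed ends) of walks of `G` in the surface: generated by deleting
backtracks and facial walks. -/
inductive Homotopic : ∀ {u v : V}, G.Walk u v → G.Walk u v → Prop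
  | refl {u v : V} (p : G.Walk u v) : Homotopic p p
  | symm {u v : V} {p q : G.Walk u v} : Homotopic p q → Homotopic q p
  | trans {u v : V} {p q r : G.Walk u v} : Homotopic p q → Homotopic q r → Homotopic p r
  | append {u v w : V} {p p' : G.Walk u v} {q q' : G.Walk v w} :
      Homotopic p p' → Homotopic q q' → Homotopic (p.append q) (p'.append q')
  | backtrack {u v : V} (h : G.Adj u v) :
      Homotopic (Walk.cons h (Walk.cons h.symm Walk.nil)) (Walk.nil : G.Walk u u)
  | facial {u : V} (d : G.Dart) (p : G.Walk u u) (hp : p.darts = R.facialDarts d) :
      Homotopic p Walk.nil

/-- A closed walk is contractible in the surface. -/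
def Contractible {v : V} (p : G.Walk v v) : Prop := R.Homotopic p Walk.nil

end Rotation

/-- `G` is `k`-list colourable: for every assignment of sets of at least `k` colours to the
vertices there is a proper colouring from the lists. -/
def ListColourable (G : SimpleGraph V) (k : ℕ) : Prop :=
  ∀ (α : Type) (L : V → Finset α), (∀ v, k ≤ (L v).card) →
    ∃ c : V → α, (∀ v, c v ∈ L v) ∧ ∀ u v, G.Adj u v → c u ≠ c v

end Pool.Agent.K7.H30.LP
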