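import Pool.Agent.K7.H30.LP.Chains

/-!
Dimension counts in the chain complex: a lower bound for the number of regions.
-/

namespace Pool.Agent.K7.H30.LP

open SimpleGraph Finset
open scoped Classical

variable {V : Type*} [Fintype V] {G : SimpleGraph V}

theorem add_self_fun {X : Type*} (f : X → ZMod 2) : f + f = 0 := by
  ext x
  exact CharTwo.add_self_eq_zero _

theorem finrank_span_singleton_le_one {M : Type*} [AddCommGroup M] [Module (ZMod 2) M] (v : M) :
    Module.finrank (ZMod 2) (Submodule.span (ZMod 2) {v}) ≤ 1 :=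
  (finrank_span_le_card ({v} : Set M)).trans (by simp)

omit [Fintype V] in
theorem zpow_invariant {X Y : Type*} (σ : Equiv.Perm X) (g : X → Y) (h : ∀ x, g (σ x) = g x)
    (i : ℤ) (x : X) : g ((σ ^ i) x) = g x := by
  have hn : ∀ n : ℕ, ∀ x, g ((σ ^ n) x) = g x := by
    intro n
    induction n with
    | zero => intro x; simp
    | succ n ih =>
      intro x
      rw [pow_succ', Equiv.Perm.mul_apply, h, ih]
  obtain ⟨n, rfl | rfl⟩ := i.eq_nat_or_neg
  · rw [zpow_natCast]; exact hn n x
  · rw [zpow_neg, zpow_natCast]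
    have := hn n ((σ ^ n)⁻¹ x)
    rw [← this]
    simp

/-- The components with darts. -/
abbrev Comp1 (G : SimpleGraph V) : Type _ :=
  {K : G.ConnectedComponent // ∃ d : G.Dart, G.connectedComponentMk d.fst = K}

/-- Components with darts and isolated vertices. -/
theorem card_comp (G : SimpleGraph V) :
    Nat.card (Comp1 G) +
      Nat.card {v : V // ∀ w, ¬ G.Adj v w} ≤ Nat.card G.ConnectedComponent := by
  rw [← Nat.card_sum]
  refine Nat.card_le_card_of_injective
    (Sum.elim (fun K => K.1) (fun v => G.connectedComponentMk v.1)) ?_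
  have hiso : ∀ (v : {v : V // ∀ w, ¬ G.Adj v w}) (u : V),
      G.Reachable v.1 u → u = v.1 := by
    rintro ⟨v, hv⟩ u ⟨p⟩
    cases p with
    | nil => rfl
    | cons h _ => exact (hv _ h).elim
  rintro (K | v) (K' | v') h
  · exact congrArg Sum.inl (Subtype.ext h)
  · obtain ⟨d, hd⟩ := K.2
    have h1 : G.connectedComponentMk v'.1 = G.connectedComponentMk d.fst := by
      rw [hd]; exact h.symm
    have h2 := hiso v' _ (ConnectedComponent.eq.1 h1)
    exact (v'.2 d.snd (h2 ▸ d.adj)).elim
  · obtain ⟨d, hd⟩ := K'.2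
    have h1 : G.connectedComponentMk v.1 = G.connectedComponentMk d.fst := by
      rw [hd]; exact h
    have h2 := hiso v _ (ConnectedComponent.eq.1 h1)
    exact (v.2 d.snd (h2 ▸ d.adj)).elim
  · have h2 := hiso v _ (ConnectedComponent.eq.1 h)
    exact congrArg Sum.inr (Subtype.ext h2.symm)

namespace Rotation

variable (R : Rotation G)

omit [Fintype V] in
theorem next_eq_of_sameCycle {Y : Type*} (g : G.Dart → Y) (h : ∀ d, g (R.next d) = g d)
    {d e : G.Dart} (hde : d.fst = e.fst) : g d = g e := by
  obtain ⟨i, hi⟩ := R.cyclic d e hde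
  rw [← hi, zpow_invariant R.next g h]

omit [Fintype V] in
theorem walk_const {Y : Type*} (g : G.Dart → Y) (h1 : ∀ d, g (R.next d) = g d)
    (h2 : ∀ d : G.Dart, g d.symm = g d) {u v : V} (p : G.Walk u v) :
    ∀ d e : G.Dart, d.fst = u → e.fst = v → g d = g e := by
  induction p with
  | nil =>
    intro d e hd he
    exact R.next_eq_of_sameCycle g h1 (hd.trans he.symm)
  | @cons u w v h p ih =>
    intro d e hd he
    have hδ := R.next_eq_of_sameCycle g h1 (d := d) (e := ⟨(u, w), h⟩) hd
    rw [hδ, ← h2]
    exact ih _ _ rfl he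

omit [Fintype V] in
theorem ker_d2_const {f : R.Face → ZMod 2} (h : R.d2 f = 0) {d e : G.Dart}
    (hde : G.Reachable d.fst e.fst) : f (R.fc d) = f (R.fc e) := by
  have h2 : ∀ d : G.Dart, f (R.fc d.symm) = f (R.fc d) := by
    intro d
    have := congrFun h (ed d)
    rw [R.d2_ed] at this
    exact (CharTwo.add_eq_zero.1 this).symm
  obtain ⟨p⟩ := hde
  exact R.walk_const (fun d => f (R.fc d)) (fun d => by rw [R.fc_next, h2]) h2 p d e rfl rfl

theorem finrank_ker_d2 :
    Module.finrank (ZMod 2) (LinearMap.ker R.d2) ≤ Nat.card (Comp1 G) := by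
  have : Fintype (Comp1 G) := Fintype.ofFinite _
  let φ : LinearMap.ker R.d2 →ₗ[ZMod 2] (Comp1 G → ZMod 2) :=
    (LinearMap.funLeft (ZMod 2) (ZMod 2) (fun K : Comp1 G => R.fc K.2.choose)).comp
      (LinearMap.ker R.d2).subtype
  have hφ : Function.Injective φ := by
    rintro ⟨f, hf⟩ ⟨f', hf'⟩ h
    apply Subtype.ext
    funext F
    obtain ⟨d, rfl⟩ := R.exists_fc F
    have h1 := congrFun h ⟨G.connectedComponentMk d.fst, d, rfl⟩
    have hr : G.Reachable d.fst
        (⟨G.connectedComponentMk d.fst, d, rfl⟩ : Comp1 G).2.choose.fst := by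
      have := (⟨G.connectedComponentMk d.fst, d, rfl⟩ : Comp1 G).2.choose_spec
      exact (ConnectedComponent.eq.1 this).symm
    show f (R.fc d) = f' (R.fc d)
    rw [R.ker_d2_const (LinearMap.mem_ker.1 hf) hr, R.ker_d2_const (LinearMap.mem_ker.1 hf') hr]
    exact h1
  have h1 := LinearMap.finrank_le_finrank_of_injective hφ
  rwa [Module.finrank_fintype_fun_eq_card, ← Nat.card_eq_fintype_card] at h1

theorem finrank_range_d2 :
    Nat.card R.Face ≤ Module.finrank (ZMod 2) (LinearMap.range R.d2) + Nat.card (Comp1 G) := by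
  have h := LinearMap.finrank_range_add_finrank_ker R.d2
  rw [Module.finrank_fintype_fun_eq_card, ← Nat.card_eq_fintype_card] at h
  have := R.finrank_ker_d2
  omega

end Rotation

theorem d1_single (d : G.Dart) :
    d1 G (Pi.single (ed d) 1) = Pi.single d.fst 1 + Pi.single d.snd 1 := by
  ext v
  rw [d1_apply]
  have h1 : ∀ d' : G.Dart, (Pi.single (ed d) 1 : C1 G) (ed d') =
      (if d' = d then 1 else 0) + (if d' = d.symm then 1 else 0) := by
    intro d'
    rw [Pi.single_apply]
    by_cases h : ed d' = ed d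
    · rw [if_pos h]
      rcases (ed_eq_iff d' d).1 h with h | h
      · rw [if_pos h, if_neg (by rw [h]; exact symm_ne d), add_zero]
      · rw [if_pos h, if_neg (by rw [h]; exact (symm_ne d).symm), zero_add]
    · rw [if_neg h, if_neg, if_neg, add_zero]
      · rintro rfl; exact h (ed_symm d)
      · rintro rfl; exact h rfl
  simp only [h1, Finset.sum_add_distrib, Finset.sum_ite_eq', Finset.mem_filter, Finset.mem_univ,
    true_and, Pi.add_apply, Pi.single_apply]
  congr 1
  · by_cases h : d.fst = v
    · simp [h]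
    · simp [h, Ne.symm h]
  · by_cases h : d.snd = v
    · simp [h]
    · simp [h, Ne.symm h]

theorem exists_chain {u v : V} (p : G.Walk u v) :
    ∃ z : C1 G, d1 G z = Pi.single u 1 + Pi.single v 1 := by
  induction p with
  | nil => exact ⟨0, by rw [map_zero, add_self_fun]⟩
  | @cons u w v h p ih =>
    obtain ⟨z, hz⟩ := ih
    refine ⟨Pi.single (ed ⟨(u, w), h⟩) 1 + z, ?_⟩
    rw [map_add, d1_single, hz]
    have : (Pi.single w 1 : V → ZMod 2) + Pi.single w 1 = 0 := add_self_fun _
    show Pi.single u 1 + Pi.single w 1 + (Pi.single w 1 + Pi.single v 1) = _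
    rw [add_assoc, ← add_assoc (Pi.single w 1 : V → ZMod 2), this, zero_add]

theorem finrank_range_d1 (G : SimpleGraph V) :
    Nat.card V ≤ Module.finrank (ZMod 2) (LinearMap.range (d1 G)) +
      Nat.card G.ConnectedComponent := by
  have : Fintype G.ConnectedComponent := Fintype.ofFinite _
  let rep : G.ConnectedComponent → V := fun K => K.exists_rep.choose
  have hrep : ∀ K, G.connectedComponentMk (rep K) = K := fun K => K.exists_rep.choose_spec
  let s : Finset (V → ZMod 2) := univ.image fun K => (Pi.single (rep K) 1 : V → ZMod 2)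
  have htop : LinearMap.range (d1 G) ⊔ Submodule.span (ZMod 2) (s : Set (V → ZMod 2)) = ⊤ := by
    rw [eq_top_iff]
    intro f _
    have hf : f = ∑ v, f v • (Pi.single v 1 : V → ZMod 2) := by
      ext w
      simp [Finset.sum_apply, Pi.single_apply]
    rw [hf]
    refine Submodule.sum_mem _ fun v _ => Submodule.smul_mem _ _ ?_
    have hr : G.Reachable v (rep (G.connectedComponentMk v)) :=
      (ConnectedComponent.eq.1 (hrep (G.connectedComponentMk v))).symm
    obtain ⟨p⟩ := hr
    obtain ⟨z, hz⟩ := exists_chain p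
    have hv : (Pi.single v 1 : V → ZMod 2) =
        d1 G z + Pi.single (rep (G.connectedComponentMk v)) 1 := by
      rw [hz, add_assoc, add_self_fun, add_zero]
    rw [hv]
    refine Submodule.add_mem_sup ⟨z, rfl⟩ (Submodule.subset_span ?_)
    simp only [s, Finset.coe_image, Finset.coe_univ, Set.image_univ, Set.mem_range]
    exact ⟨_, rfl⟩
  have h1 := Submodule.finrank_add_le_finrank_add_finrank (LinearMap.range (d1 G))
    (Submodule.span (ZMod 2) (s : Set (V → ZMod 2)))
  rw [htop, finrank_top, Module.finrank_fintype_fun_eq_card, ← Nat.card_eq_fintype_card] at h1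
  have h2 : Module.finrank (ZMod 2) (Submodule.span (ZMod 2) (s : Set (V → ZMod 2))) ≤
      Nat.card G.ConnectedComponent := by
    refine (finrank_span_finset_le_card s).trans ?_
    rw [Nat.card_eq_fintype_card, ← Finset.card_univ]
    exact Finset.card_image_le
  omega

theorem finrank_ker_d1 (G : SimpleGraph V) :
    Module.finrank (ZMod 2) (LinearMap.ker (d1 G)) + Nat.card V ≤
      Nat.card G.edgeSet + Nat.card G.ConnectedComponent := by
  have h := LinearMap.finrank_range_add_finrank_ker (d1 G)
  rw [Module.finrank_fintype_fun_eq_card, ← Nat.card_eq_fintype_card] at h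
  have := finrank_range_d1 G
  omega

end Pool.Agent.K7.H30.LP
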