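import Pool.Agent.K7.H30.LP.AlonTarsi

/-!
Removal of the edges of a forest: Alon-Tarsi number at most three.
-/

namespace Pool.Agent.K7.H30.LP

open SimpleGraph Finset MvPolynomial
open scoped Classical

variable {V : Type*} [Fintype V] {G : SimpleGraph V}

/-- A graph in which every vertex is joined to at most one vertex of smaller rank, and to no vertex
of the same rank, is a forest. -/
theorem isAcyclic_of_parent (F : SimpleGraph V) (r : V → ℕ) (p : V → V)
    (h : ∀ x y, F.Adj x y → (r y < r x ∧ y = p x) ∨ (r x < r y ∧ x = p y)) :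
    F.IsAcyclic := by
  intro v c hc
  obtain ⟨w, hw, hmax⟩ := Finset.exists_max_image c.support.toFinset r ⟨v, by simp⟩
  have hw' : w ∈ c.support := by simpa using hw
  have hc' : (c.rotate w hw').IsCycle := by rwa [Walk.isCycle_rotate]
  set c' := c.rotate w hw' with hcc
  have hnil : ¬ c'.Nil := hc'.not_nil
  have h1 : F.Adj w c'.snd := c'.adj_snd hnil
  have h2 : F.Adj c'.penultimate w := c'.adj_penultimate hnil
  have hsup : ∀ x ∈ c'.support, r x ≤ r w := by
    intro x hx
    refine hmax x ?_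
    rw [List.mem_toFinset]
    rwa [hcc, Walk.mem_support_rotate_iff] at hx
  have e1 : c'.snd = p w := by
    rcases h _ _ h1 with ⟨-, h⟩ | ⟨h, -⟩
    · exact h
    · have := hsup c'.snd (Walk.getVert_mem_support _ _)
      omega
  have e2 : c'.penultimate = p w := by
    rcases h _ _ h2 with ⟨h, -⟩ | ⟨-, h⟩
    · have := hsup c'.penultimate (Walk.getVert_mem_support _ _)
      omega
    · exact h
  exact hc'.snd_ne_penultimate (e1.trans e2.symm)

/-- After the removal of the edges of a forest, `G[S]` has Alon-Tarsi number at most three. -/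
def FS (G : SimpleGraph V) (S : Finset V) : Prop :=
  ∃ (F : SimpleGraph V) (r : V → ℕ) (p : V → V),
    (∀ x y, F.Adj x y → G.Adj x y ∧ x ∈ S ∧ y ∈ S) ∧
    (∀ x y, F.Adj x y → (r y < r x ∧ y = p x) ∨ (r x < r y ∧ x = p y)) ∧
    (∀ v ∈ S, r v ≤ S.card) ∧ ATS 2 (G \ F) S

theorem fs_block {S K : Finset V} (hKS : K ⊆ S) (hKne : K.Nonempty) (h : FS G (S \ K))
    (mi : V →₀ ℕ) (hmi : ∀ v, v ∉ K → mi v = 0) (hmi' : (∏ e ∈ eS G K, fac e).coeff mi ≠ 0)
    (hmi1 : ∀ v ∈ K, mi v ≤ 2)
    (hdeg : ∀ v ∈ K, ((S \ K).filter fun u => G.Adj v u).card + mi v ≤ 3) : FS G S := by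
  obtain ⟨F0, r0, p0, h1, h2, h3, h4⟩ := h
  set N : V → Finset V := fun v => (S \ K).filter fun u => G.Adj v u with hN
  have hq : ∀ v, ∃ q, (N v).Nonempty → q ∈ N v := by
    intro v
    by_cases hv : (N v).Nonempty
    · exact ⟨hv.choose, fun _ => hv.choose_spec⟩
    · exact ⟨v, fun h => (hv h).elim⟩
  choose q hq using hq
  have hqK : ∀ v, (N v).Nonempty → q v ∈ S ∧ q v ∉ K ∧ G.Adj v (q v) := by
    intro v hv
    have := hq v hv
    rw [hN] at this
    simp only [Finset.mem_filter, Finset.mem_sdiff] at this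
    exact ⟨this.1.1, this.1.2, this.2⟩
  let F : SimpleGraph V :=
    { Adj := fun x y => F0.Adj x y ∨ (x ∈ K ∧ (N x).Nonempty ∧ y = q x) ∨
        (y ∈ K ∧ (N y).Nonempty ∧ x = q y)
      symm := by
        refine ⟨?_⟩
        rintro x y (h | h | h)
        · exact Or.inl h.symm
        · exact Or.inr (Or.inr h)
        · exact Or.inr (Or.inl h)
      loopless := by
        refine ⟨fun x hx => ?_⟩
        rcases hx with h | ⟨ha, hb, hc⟩ | ⟨ha, hb, hc⟩
        · exact F0.loopless.irrefl _ h
        · exact (hqK x hb).2.1 (hc ▸ ha)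
        · exact (hqK x hb).2.1 (hc ▸ ha) }
  have hF : ∀ x y, F.Adj x y ↔ F0.Adj x y ∨ (x ∈ K ∧ (N x).Nonempty ∧ y = q x) ∨
        (y ∈ K ∧ (N y).Nonempty ∧ x = q y) := fun _ _ => Iff.rfl
  have hcard : (S \ K).card < S.card := Finset.card_lt_card (Finset.sdiff_ssubset hKS hKne)
  have hF0K : ∀ x y, F0.Adj x y → x ∉ K ∧ y ∉ K := by
    intro x y hxy
    obtain ⟨-, hx, hy⟩ := h1 x y hxy
    exact ⟨(Finset.mem_sdiff.1 hx).2, (Finset.mem_sdiff.1 hy).2⟩
  refine ⟨F, fun v => if v ∈ K then S.card else r0 v, fun v => if v ∈ K then q v else p0 v,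
    ?_, ?_, ?_, ?_⟩
  · intro x y hxy
    rcases (hF x y).1 hxy with h | ⟨ha, hb, rfl⟩ | ⟨ha, hb, rfl⟩
    · obtain ⟨h5, h6, h7⟩ := h1 x y h
      exact ⟨h5, (Finset.mem_sdiff.1 h6).1, (Finset.mem_sdiff.1 h7).1⟩
    · exact ⟨(hqK x hb).2.2, hKS ha, (hqK x hb).1⟩
    · exact ⟨(hqK y hb).2.2.symm, (hqK y hb).1, hKS ha⟩
  · have hlt : ∀ x, (N x).Nonempty → (if q x ∈ K then S.card else r0 (q x)) < S.card := by
      intro x hx
      obtain ⟨h5, h6, -⟩ := hqK x hx
      rw [if_neg h6]
      exact (h3 _ (Finset.mem_sdiff.2 ⟨h5, h6⟩)).trans_lt hcard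
    intro x y hxy
    rcases (hF x y).1 hxy with h | ⟨ha, hb, rfl⟩ | ⟨ha, hb, rfl⟩
    · obtain ⟨h5, h6⟩ := hF0K x y h
      simp only [if_neg h5, if_neg h6]
      exact h2 x y h
    · left
      simp only [if_pos ha]
      exact ⟨hlt x hb, trivial⟩
    · right
      simp only [if_pos ha]
      exact ⟨hlt y hb, trivial⟩
  · intro v hv
    by_cases hvK : v ∈ K
    · simp [hvK]
    · simp only [if_neg hvK]
      exact (h3 v (Finset.mem_sdiff.2 ⟨hv, hvK⟩)).trans hcard.le
  · have e1 : eS (G \ F) (S \ K) = eS (G \ F0) (S \ K) := by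
      ext e
      obtain ⟨x, y, rfl⟩ : ∃ x y, e = s(x, y) := Sym2.exists.1 ⟨e, rfl⟩
      rw [mem_eS, mem_eS, SimpleGraph.mem_edgeSet, SimpleGraph.mem_edgeSet,
        SimpleGraph.sdiff_adj, SimpleGraph.sdiff_adj]
      constructor
      · rintro ⟨⟨h5, h6⟩, h7⟩
        exact ⟨⟨h5, fun h => h6 ((hF x y).2 (Or.inl h))⟩, h7⟩
      · rintro ⟨⟨h5, h6⟩, h7⟩
        refine ⟨⟨h5, fun h => ?_⟩, h7⟩
        have hx := (Finset.mem_sdiff.1 (h7 x (by simp))).2
        have hy := (Finset.mem_sdiff.1 (h7 y (by simp))).2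
        rcases (hF x y).1 h with h | ⟨ha, -, -⟩ | ⟨ha, -, -⟩
        · exact h6 h
        · exact hx ha
        · exact hy ha
    have e2 : eS (G \ F) K = eS G K := by
      ext e
      obtain ⟨x, y, rfl⟩ : ∃ x y, e = s(x, y) := Sym2.exists.1 ⟨e, rfl⟩
      rw [mem_eS, mem_eS, SimpleGraph.mem_edgeSet, SimpleGraph.mem_edgeSet,
        SimpleGraph.sdiff_adj]
      constructor
      · rintro ⟨⟨h5, h6⟩, h7⟩
        exact ⟨h5, h7⟩
      · rintro ⟨h5, h7⟩
        refine ⟨⟨h5, fun h => ?_⟩, h7⟩
        have hx := h7 x (by simp)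
        have hy := h7 y (by simp)
        rcases (hF x y).1 h with h | ⟨-, hb, rfl⟩ | ⟨-, hb, rfl⟩
        · exact (hF0K x y h).1 hx
        · exact (hqK x hb).2.1 hy
        · exact (hqK y hb).2.1 hx
    have hA : ATS 2 (G \ F) (S \ K) := by
      obtain ⟨m, ha, hb, hc⟩ := h4
      exact ⟨m, ha, hb, by rw [e1]; exact hc⟩
    refine block hKS hA mi hmi (by rw [e2]; exact hmi') fun v hv => ?_
    have h5 : (N v).card + mi v ≤ 3 := hdeg v hv
    have h6 := hmi1 v hv
    have key : ∀ T : Finset V, (∀ u ∈ T, u ∈ N v ∧ ¬ F.Adj v u) → T.card + mi v ≤ 2 := by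
      intro T hT
      by_cases hne : (N v).Nonempty
      · have h7 : T ⊆ (N v).erase (q v) := by
          intro u hu
          rw [Finset.mem_erase]
          refine ⟨?_, (hT u hu).1⟩
          rintro rfl
          exact (hT _ hu).2 ((hF v (q v)).2 (Or.inr (Or.inl ⟨hv, hne, rfl⟩)))
        have h8 := Finset.card_le_card h7
        rw [Finset.card_erase_of_mem (hq v hne)] at h8
        have h9 : 0 < (N v).card := Finset.card_pos.2 hne
        omega
      · rw [Finset.not_nonempty_iff_eq_empty] at hne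
        have h7 : T ⊆ N v := fun u hu => (hT u hu).1
        have h8 := Finset.card_le_card h7
        rw [hne, Finset.card_empty] at h8
        omega
    refine key _ fun u hu => ?_
    simp only [Finset.mem_filter, SimpleGraph.sdiff_adj] at hu
    refine ⟨?_, hu.2.2⟩
    rw [hN]
    simp only [Finset.mem_filter]
    exact ⟨hu.1, hu.2.1⟩

/-- In graphs in which every vertex set has a vertex of degree at most three or a light 4-cycle one
can remove the edges of a forest such that the Alon-Tarsi number becomes at most three. -/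
theorem forest_of_peel
    (hp : ∀ S : Finset V, S.Nonempty →
      (∃ v ∈ S, degIn G S v ≤ 3) ∨ ∃ a b c d, Light4 G S a b c d) :
    ∃ F : SimpleGraph V, F ≤ G ∧ F.IsAcyclic ∧ AlonTarsiLE (G \ F) 3 := by
  have key : ∀ n : ℕ, ∀ S : Finset V, S.card = n → FS G S := by
    intro n
    induction n using Nat.strong_induction_on with
    | _ n ih =>
      intro S hS
      rcases S.eq_empty_or_nonempty with rfl | hne
      · refine ⟨⊥, fun _ => 0, id, by simp, by simp, by simp, 0, by simp, by simp, ?_⟩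
        rw [eS_empty]
        simp
      · rcases hp S hne with ⟨v, hv, hd⟩ | ⟨a, b, c, d, h⟩
        · refine fs_block (K := {v}) (by simpa using hv) (by simp) (ih _ ?_ _ rfl) 0
            (fun _ _ => rfl) ?_ ?_ ?_
          · rw [← hS]
            exact Finset.card_lt_card (Finset.sdiff_ssubset (by simpa using hv) (by simp))
          · rw [eS_singleton]
            simp
          · intro w _
            simp
          · intro w hw
            rw [Finset.mem_singleton] at hw
            subst hw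
            simpa using card_sdiff_adj_le.trans hd
        · obtain ⟨hKS, mi, h1, h2, h3, h4⟩ := h.facts
          refine fs_block hKS (by simp) (ih _ ?_ _ rfl) mi h1 h2 ?_ ?_
          · rw [← hS]
            exact Finset.card_lt_card (Finset.sdiff_ssubset hKS (by simp))
          · intro v hv
            have := h3 v hv
            omega
          · intro v hv
            have := h3 v hv
            have := h4 v hv
            omega
  obtain ⟨F, r, p, h1, h2, -, h4⟩ := key _ univ rfl
  exact ⟨F, fun x y hxy => (h1 x y hxy).1, isAcyclic_of_parent F r p h2, alonTarsiLE_of_ats h4⟩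

end Pool.Agent.K7.H30.LP
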