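import Pool.Agent.K7.H30.LP.Counting
import Pool.Agent.K7.H30.LP.Colour

/-!
Locally planar even-faced graphs are 4-list colourable.
-/

namespace Pool.Agent.K7.H30.LP

open SimpleGraph Finset
open scoped Classical

variable {V : Type*} [Fintype V] {G : SimpleGraph V}

theorem sum_ch {u v : V} (p : G.Walk u v) : ∑ e, ch p e = (p.length : ZMod 2) := by
  induction p with
  | nil => simp
  | @cons u w v h p ih =>
    rw [ch_cons]
    simp only [Pi.add_apply, Finset.sum_add_distrib]
    rw [ih, Finset.sum_pi_single']
    simp [add_comm]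

/-- Short contractible cycles and even faces exclude triangles. -/
theorem noTriangle (R : Rotation G) (hE : R.EvenFaced)
    (hyp : ∀ (v : V) (p : G.Walk v v), p.IsCycle → p.length < 4 → R.Contractible p) :
    NoTriangle G := by
  intro a b c hab hbc hca
  let p : G.Walk a a := Walk.cons hab (Walk.cons hbc (Walk.cons hca Walk.nil))
  have hp : p.IsCycle := by
    rw [Walk.isCycle_def, Walk.isTrail_def]
    have nab := hab.ne
    have nbc := hbc.ne
    have nca := hca.ne
    refine ⟨?_, ?_, ?_⟩
    · simp only [p, Walk.edges_cons, Walk.edges_nil, List.nodup_cons, List.mem_cons,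
        List.not_mem_nil, or_false, not_false_eq_true, List.nodup_nil, and_true, Sym2.eq_iff,
        not_or, not_and]
      refine ⟨⟨⟨fun h => (nab h).elim, fun h => (nca h.symm).elim⟩,
        ⟨fun h => (nca h.symm).elim, fun _ h => nbc h⟩⟩, ⟨fun h => (nbc h).elim,
        fun h => (nab h.symm).elim⟩⟩
    · simp [p]
    · simp only [p, Walk.support_cons, Walk.support_nil, List.tail_cons, List.nodup_cons,
        List.mem_cons, List.not_mem_nil, or_false, not_false_eq_true, List.nodup_nil, and_true,
        not_or]
      exact ⟨⟨nbc, nab.symm⟩, nca⟩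
  have hlen : p.length = 3 := rfl
  have h1 := R.sum_range_d2 hE (R.ch_contractible (hyp a p hp (by omega)))
  rw [sum_ch, hlen] at h1
  revert h1
  decide

/-- The main argument. -/
theorem main (R : Rotation G) (hT : NoTriangle G) {g N : ℕ}
    (hg : R.twiceGenus ≤ 2 * g) (hN : 82 * g ≤ N)
    (hyp : ∀ (v : V) (p : G.Walk v v), p.IsCycle → p.length < N → R.Contractible p)
    {α : Type*} (L : V → Finset α) (hL : ∀ v, 4 ≤ (L v).card) : ColS G L univ := by
  by_contra hcon
  obtain ⟨S, hS, hmin⟩ := exists_critical hcon
  have hSne : S.Nonempty := by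
    by_contra hne
    rw [Finset.not_nonempty_iff_eq_empty] at hne
    subst hne
    have hLne : ∀ v, (L v).Nonempty := fun v => Finset.card_pos.1 (by have := hL v; omega)
    exact hS ⟨fun v => (hLne v).choose, by simp, by simp⟩
  have hdeg : ∀ v ∈ S, 4 ≤ dg G S v := fun v hv => by
    rw [dg_eq]; exact four_le_deg hL hS hmin hv
  have hhand := handshake (G := G) S
  have hspos : 1 ≤ S.card := Finset.card_pos.2 hSne
  have ht2 : 2 * S.card ≤ (inner G S).card := by
    have : 4 * S.card ≤ ∑ v ∈ S, dg G S v := by
      rw [Nat.mul_comm, ← smul_eq_mul, ← Finset.sum_const]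
      exact Finset.sum_le_sum hdeg
    omega
  -- the regions with boundary
  set P := univ.filter fun q : R.Region (inner G S) => R.rb (inner G S) q ≠ 0 with hP
  have hPm : ∀ q ∈ P, R.rb (inner G S) q ≠ 0 := fun q hq => (Finset.mem_filter.1 hq).2
  have h4 : ∀ q ∈ P, 4 ≤ R.bl (inner G S) q := fun q hq => R.four_le_bl hT (hPm q hq)
  have hsum : ∑ q ∈ P, R.bl (inner G S) q ≤ 2 * (inner G S).card :=
    (Finset.sum_le_sum_of_subset (Finset.subset_univ P)).trans (R.sum_bl (inner G S))
  by_cases hsmall : S.card < N
  · -- small critical sets are planar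
    have h1 := R.card_region_of_bounding hSne (R.cyc_le hyp hsmall)
    rw [← hP] at h1
    have h3 : 4 * P.card ≤ ∑ q ∈ P, R.bl (inner G S) q := by
      rw [Nat.mul_comm, ← smul_eq_mul, ← Finset.sum_const]
      exact Finset.sum_le_sum h4
    omega
  · push Not at hsmall
    have h1 := R.card_region hSne hg
    rw [← hP] at h1
    -- the vertices of large degree
    set bad := S.filter fun v => 4 < dg G S v with hbad
    -- there is a region with four boundary edges which avoids them
    have hgood : ∃ q ∈ P, R.bl (inner G S) q = 4 ∧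
        ∀ v ∈ bad, ¬ ∃ u, (chGraph (R.rb (inner G S) q)).Adj v u := by
      by_contra hno
      push Not at hno
      -- counting
      set A := P.filter fun q => R.bl (inner G S) q ≠ 4 with hA
      set B := bad.biUnion fun v => univ.filter fun q : R.Region (inner G S) =>
        ∃ u, (chGraph (R.rb (inner G S) q)).Adj v u with hB
      have hcover : P ⊆ A ∪ B := by
        intro q hqP
        rw [Finset.mem_union]
        by_cases hq : R.bl (inner G S) q = 4
        · right
          obtain ⟨v, hv, u, hu⟩ := hno q hqP hq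
          refine Finset.mem_biUnion.2 ⟨v, hv, ?_⟩
          simp only [Finset.mem_filter, Finset.mem_univ, true_and]
          exact ⟨u, hu⟩
        · left
          exact Finset.mem_filter.2 ⟨hqP, hq⟩
      have hcard : P.card ≤ A.card + B.card :=
        (Finset.card_le_card hcover).trans (Finset.card_union_le _ _)
      have hAcard : 4 * P.card + A.card ≤ ∑ q ∈ P, R.bl (inner G S) q := by
        have e1 : A.card = ∑ q ∈ P, if R.bl (inner G S) q ≠ 4 then 1 else 0 := by
          rw [hA, Finset.card_filter]
        have e2 : 4 * P.card = ∑ _q ∈ P, 4 := by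
          rw [Finset.sum_const, smul_eq_mul, Nat.mul_comm]
        rw [e1, e2, ← Finset.sum_add_distrib]
        refine Finset.sum_le_sum fun q hqP => ?_
        have := h4 q hqP
        by_cases hq : R.bl (inner G S) q = 4
        · simp [hq]
        · rw [if_pos hq]; omega
      have hBcard : B.card ≤ ∑ v ∈ bad, 2 * dg G S v := by
        rw [hB]
        refine Finset.card_biUnion_le.trans (Finset.sum_le_sum fun v _ => ?_)
        exact R.card_touch S v
      have hX : ∑ v ∈ bad, 2 * dg G S v + 40 * S.card ≤ 20 * (inner G S).card := by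
        -- `2 deg ≤ 10 (deg - 4)` on bad vertices
        have e3 : ∑ v ∈ bad, 2 * dg G S v + ∑ _v ∈ S, 40 ≤ ∑ v ∈ S, 10 * dg G S v := by
          rw [hbad, Finset.sum_filter, ← Finset.sum_add_distrib]
          refine Finset.sum_le_sum fun v hv => ?_
          have := hdeg v hv
          by_cases hb : 4 < dg G S v
          · rw [if_pos hb]; omega
          · rw [if_neg hb]; omega
        have e4 : ∑ v ∈ S, 10 * dg G S v = 20 * (inner G S).card := by
          rw [← Finset.mul_sum, hhand]; ring
        rw [Finset.sum_const, smul_eq_mul, e4] at e3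
        omega
      omega
    obtain ⟨q, hqP, hq4, hqb⟩ := hgood
    obtain ⟨a, b, c, d, hac, hbd, hab, hbc, hcd, hda⟩ :=
      (four_edges hT (R.d1_rb (inner G S) q) (hPm q hqP)).2 hq4
    have hmem : ∀ x y, (chGraph (R.rb (inner G S) q)).Adj x y → x ∈ S := by
      rintro x y ⟨hadj, hne⟩
      exact ((mem_inner (S := S) (⟨(x, y), hadj⟩ : G.Dart)).1 (R.rb_ne hne).1).1
    have hdeg4 : ∀ x y, (chGraph (R.rb (inner G S) q)).Adj x y →
        (S.filter fun u => G.Adj x u).card ≤ 4 := by
      intro x y hxy
      rw [← dg_eq]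
      by_contra hlt
      push Not at hlt
      exact hqb x (by simp [hbad, hmem x y hxy, hlt]) ⟨y, hxy⟩
    exact no_cycle4 hL hS hmin (hmem _ _ hab) (hmem _ _ hbc) (hmem _ _ hcd) (hmem _ _ hda)
      hac hbd (chGraph_le _ hab) (chGraph_le _ hbc) (chGraph_le _ hcd) (chGraph_le _ hda)
      (fun h => hT a b c (chGraph_le _ hab) (chGraph_le _ hbc) h.symm)
      (fun h => hT b c d (chGraph_le _ hbc) (chGraph_le _ hcd) h.symm)
      (hdeg4 _ _ hab) (hdeg4 _ _ hbc) (hdeg4 _ _ hcd) (hdeg4 _ _ hda)

/-- Locally planar graphs without triangles. -/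
theorem of_noTriangle (R : Rotation G) (hT : NoTriangle G) {g : ℕ}
    (hg : R.twiceGenus ≤ 2 * g)
    (hyp : ∀ (v : V) (p : G.Walk v v), p.IsCycle → ¬ R.Contractible p → 82 * g ≤ p.length) :
    ListColourable G 4 := by
  intro α L hL
  obtain ⟨c, hc1, hc2⟩ := main R hT hg le_rfl
    (fun v p hp hlt => by
      by_contra hcon
      have := hyp v p hp hcon
      omega) L hL
  exact ⟨c, fun v => hc1 v (mem_univ v), fun u v h => hc2 u (mem_univ u) v (mem_univ v) h⟩

/-- Locally planar even-faced graphs. -/
theorem of_evenFaced (R : Rotation G) (hE : R.EvenFaced) {g : ℕ}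
    (hg : R.twiceGenus ≤ 2 * g)
    (hyp : ∀ (v : V) (p : G.Walk v v), p.IsCycle → ¬ R.Contractible p →
      82 * g + 4 ≤ p.length) :
    ListColourable G 4 := by
  refine of_noTriangle R (noTriangle R hE fun v p hp hlt => ?_) hg fun v p hp hn => ?_
  · by_contra hcon
    have := hyp v p hp hcon
    omega
  · have := hyp v p hp hn
    omega

end Pool.Agent.K7.H30.LP
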