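import Pool.Agent.K7.H30.LP.Main

/-!
The structure theorem behind the colouring theorems: peeling of locally planar graphs without
triangles.
-/

namespace Pool.Agent.K7.H30.LP

open SimpleGraph Finset
open scoped Classical

variable {V : Type*} [Fintype V] {G : SimpleGraph V}

/-- The vertices of `S` adjacent to `v`. -/
noncomputable def degIn (G : SimpleGraph V) (S : Finset V) (v : V) : ℕ := (S.filter fun u => G.Adj v u).card

/-- `a b c d` is an induced 4-cycle in `S` and all its vertices have degree at most four in `S`. -/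
structure Light4 (G : SimpleGraph V) (S : Finset V) (a b c d : V) : Prop where
  ha : a ∈ S
  hb : b ∈ S
  hc : c ∈ S
  hd : d ∈ S
  hac : a ≠ c
  hbd : b ≠ d
  hab : G.Adj a b
  hbc : G.Adj b c
  hcd : G.Adj c d
  hda : G.Adj d a
  nac : ¬ G.Adj a c
  nbd : ¬ G.Adj b d
  da : degIn G S a ≤ 4
  db : degIn G S b ≤ 4
  dc : degIn G S c ≤ 4
  dd : degIn G S d ≤ 4

/-- **Structure theorem.** Every nonempty set `S` of vertices contains a vertex of degree at most
three in `S` or an induced 4-cycle all of whose vertices have degree at most four in `S`. -/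
theorem peel (R : Rotation G) (hT : NoTriangle G) {g N : ℕ}
    (hg : R.twiceGenus ≤ 2 * g) (hN : 82 * g ≤ N)
    (hyp : ∀ (v : V) (p : G.Walk v v), p.IsCycle → p.length < N → R.Contractible p)
    (S : Finset V) (hSne : S.Nonempty) :
    (∃ v ∈ S, degIn G S v ≤ 3) ∨ ∃ a b c d, Light4 G S a b c d := by
  by_contra hcon
  push Not at hcon
  obtain ⟨hdeg0, hno4⟩ := hcon
  have hdeg : ∀ v ∈ S, 4 ≤ dg G S v := fun v hv => by
    rw [dg_eq]; exact hdeg0 v hv
  have hhand := handshake (G := G) S
  have hspos : 1 ≤ S.card := Finset.card_pos.2 hSne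
  have ht2 : 2 * S.card ≤ (inner G S).card := by
    have : 4 * S.card ≤ ∑ v ∈ S, dg G S v := by
      rw [Nat.mul_comm, ← smul_eq_mul, ← Finset.sum_const]
      exact Finset.sum_le_sum hdeg
    omega
  -- the regions with boundary
  set P := univ.filter fun q : R.Region (inner G S) => R.rb (inner G S) q ≠ 0 with hP
  have hPm : ∀ q ∈ P, R.rb (inner G S) q ≠ 0 := fun q hq => (Finset.mem_filter.1 hq).2
  have h4 : ∀ q ∈ P, 4 ≤ R.bl (inner G S) q := fun q hq => R.four_le_bl hT (hPm q hq)
  have hsum : ∑ q ∈ P, R.bl (inner G S) q ≤ 2 * (inner G S).card :=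
    (Finset.sum_le_sum_of_subset (Finset.subset_univ P)).trans (R.sum_bl (inner G S))
  by_cases hsmall : S.card < N
  · -- small critical sets are planar
    have h1 := R.card_region_of_bounding hSne (R.cyc_le hyp hsmall)
    rw [← hP] at h1
    have h3 : 4 * P.card ≤ ∑ q ∈ P, R.bl (inner G S) q := by
      rw [Nat.mul_comm, ← smul_eq_mul, ← Finset.sum_const]
      exact Finset.sum_le_sum h4
    omega
  · push Not at hsmall
    have h1 := R.card_region hSne hg
    rw [← hP] at h1
    -- the vertices of large degree
    set bad := S.filter fun v => 4 < dg G S v with hbad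
    -- there is a region with four boundary edges which avoids them
    have hgood : ∃ q ∈ P, R.bl (inner G S) q = 4 ∧
        ∀ v ∈ bad, ¬ ∃ u, (chGraph (R.rb (inner G S) q)).Adj v u := by
      by_contra hno
      push Not at hno
      -- counting
      set A := P.filter fun q => R.bl (inner G S) q ≠ 4 with hA
      set B := bad.biUnion fun v => univ.filter fun q : R.Region (inner G S) =>
        ∃ u, (chGraph (R.rb (inner G S) q)).Adj v u with hB
      have hcover : P ⊆ A ∪ B := by
        intro q hqP
        rw [Finset.mem_union]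
        by_cases hq : R.bl (inner G S) q = 4
        · right
          obtain ⟨v, hv, u, hu⟩ := hno q hqP hq
          refine Finset.mem_biUnion.2 ⟨v, hv, ?_⟩
          simp only [Finset.mem_filter, Finset.mem_univ, true_and]
          exact ⟨u, hu⟩
        · left
          exact Finset.mem_filter.2 ⟨hqP, hq⟩
      have hcard : P.card ≤ A.card + B.card :=
        (Finset.card_le_card hcover).trans (Finset.card_union_le _ _)
      have hAcard : 4 * P.card + A.card ≤ ∑ q ∈ P, R.bl (inner G S) q := by
        have e1 : A.card = ∑ q ∈ P, if R.bl (inner G S) q ≠ 4 then 1 else 0 := by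
          rw [hA, Finset.card_filter]
        have e2 : 4 * P.card = ∑ _q ∈ P, 4 := by
          rw [Finset.sum_const, smul_eq_mul, Nat.mul_comm]
        rw [e1, e2, ← Finset.sum_add_distrib]
        refine Finset.sum_le_sum fun q hqP => ?_
        have := h4 q hqP
        by_cases hq : R.bl (inner G S) q = 4
        · simp [hq]
        · rw [if_pos hq]; omega
      have hBcard : B.card ≤ ∑ v ∈ bad, 2 * dg G S v := by
        rw [hB]
        refine Finset.card_biUnion_le.trans (Finset.sum_le_sum fun v _ => ?_)
        exact R.card_touch S v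
      have hX : ∑ v ∈ bad, 2 * dg G S v + 40 * S.card ≤ 20 * (inner G S).card := by
        -- `2 deg ≤ 10 (deg - 4)` on bad vertices
        have e3 : ∑ v ∈ bad, 2 * dg G S v + ∑ _v ∈ S, 40 ≤ ∑ v ∈ S, 10 * dg G S v := by
          rw [hbad, Finset.sum_filter, ← Finset.sum_add_distrib]
          refine Finset.sum_le_sum fun v hv => ?_
          have := hdeg v hv
          by_cases hb : 4 < dg G S v
          · rw [if_pos hb]; omega
          · rw [if_neg hb]; omega
        have e4 : ∑ v ∈ S, 10 * dg G S v = 20 * (inner G S).card := by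
          rw [← Finset.mul_sum, hhand]; ring
        rw [Finset.sum_const, smul_eq_mul, e4] at e3
        omega
      omega
    obtain ⟨q, hqP, hq4, hqb⟩ := hgood
    obtain ⟨a, b, c, d, hac, hbd, hab, hbc, hcd, hda⟩ :=
      (four_edges hT (R.d1_rb (inner G S) q) (hPm q hqP)).2 hq4
    have hmem : ∀ x y, (chGraph (R.rb (inner G S) q)).Adj x y → x ∈ S := by
      rintro x y ⟨hadj, hne⟩
      exact ((mem_inner (S := S) (⟨(x, y), hadj⟩ : G.Dart)).1 (R.rb_ne hne).1).1
    have hdeg4 : ∀ x y, (chGraph (R.rb (inner G S) q)).Adj x y →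
        (S.filter fun u => G.Adj x u).card ≤ 4 := by
      intro x y hxy
      rw [← dg_eq]
      by_contra hlt
      push Not at hlt
      exact hqb x (by simp [hbad, hmem x y hxy, hlt]) ⟨y, hxy⟩
    exact hno4 a b c d ⟨hmem _ _ hab, hmem _ _ hbc, hmem _ _ hcd, hmem _ _ hda,
      hac, hbd, chGraph_le _ hab, chGraph_le _ hbc, chGraph_le _ hcd, chGraph_le _ hda,
      fun h => hT a b c (chGraph_le _ hab) (chGraph_le _ hbc) h.symm,
      fun h => hT b c d (chGraph_le _ hbc) (chGraph_le _ hcd) h.symm,
      hdeg4 _ _ hab, hdeg4 _ _ hbc, hdeg4 _ _ hcd, hdeg4 _ _ hda⟩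

end Pool.Agent.K7.H30.LP
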