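import Pool.Agent.K7.H30.LP.Dims

/-!
The regions of the subgraph spanned by a vertex set and their number.
-/

namespace Pool.Agent.K7.H30.LP

open SimpleGraph Finset
open scoped Classical

variable {V : Type*} [Fintype V] {G : SimpleGraph V}

/-- The edges inside a set of vertices. -/
noncomputable def inner (G : SimpleGraph V) (S : Finset V) : Finset G.edgeSet :=
  univ.filter fun e => (dartOf e).fst ∈ S ∧ (dartOf e).snd ∈ S

theorem mem_inner {S : Finset V} (d : G.Dart) : ed d ∈ inner G S ↔ d.fst ∈ S ∧ d.snd ∈ S := by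
  unfold inner
  rw [Finset.mem_filter]
  rcases (ed_eq_iff' d (ed d)).1 rfl with h | h
  · rw [← h]; simp
  · have h2 := congrArg Dart.symm h
    rw [Dart.symm_symm] at h2
    rw [← h2]
    simp [and_comm]

/-- Chains supported in a set of edges. -/
def supp (T : Finset G.edgeSet) : Submodule (ZMod 2) (C1 G) where
  carrier := {z | ∀ e, e ∉ T → z e = 0}
  add_mem' {z w} hz hw e he := by simp [hz e he, hw e he]
  zero_mem' e _ := rfl
  smul_mem' a z hz e he := by simp [hz e he]

omit [Fintype V] in
theorem mem_supp {T : Finset G.edgeSet} {z : C1 G} : z ∈ supp T ↔ ∀ e, e ∉ T → z e = 0 := Iff.rfl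

/-- Extension by zero. -/
noncomputable def ext0 (T : Finset G.edgeSet) : (T → ZMod 2) →ₗ[ZMod 2] C1 G where
  toFun w e := if h : e ∈ T then w ⟨e, h⟩ else 0
  map_add' w w' := by
    ext e
    by_cases h : e ∈ T <;> simp [h]
  map_smul' a w := by
    ext e
    by_cases h : e ∈ T <;> simp [h]

omit [Fintype V] in
theorem ext0_injective (T : Finset G.edgeSet) : Function.Injective (ext0 T) := by
  intro w w' h
  ext ⟨e, he⟩
  have := congrFun h e
  simpa [ext0, he] using this

omit [Fintype V] in
theorem ext0_mem (T : Finset G.edgeSet) (w : T → ZMod 2) : ext0 T w ∈ supp T := by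
  intro e he
  simp [ext0, he]

/-- Cycles supported in `T`. -/
noncomputable def cyc (T : Finset G.edgeSet) : Submodule (ZMod 2) (C1 G) :=
  LinearMap.ker (d1 G) ⊓ supp T

theorem sum_d1 (z : C1 G) : ∑ v, d1 G z v = 0 := by
  have := pair_d1 z (fun _ => 1)
  simp only [one_mul] at this
  rw [this]
  refine Finset.sum_eq_zero fun e _ => ?_
  rw [CharTwo.add_self_eq_zero, zero_mul]

theorem finrank_cyc {S : Finset V} (hS : S.Nonempty) :
    (inner G S).card + 1 ≤ Module.finrank (ZMod 2) (cyc (inner G S)) + S.card := by
  obtain ⟨s0, hs0⟩ := hS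
  set T := inner G S with hT
  let res : (V → ZMod 2) →ₗ[ZMod 2] ({x // x ∈ S.erase s0} → ZMod 2) :=
    LinearMap.funLeft (ZMod 2) (ZMod 2) (fun x => (x : V))
  let μ := res.comp ((d1 G).comp (ext0 T))
  have h1 := LinearMap.finrank_range_add_finrank_ker μ
  have h2 : Module.finrank (ZMod 2) (LinearMap.range μ) ≤ S.card - 1 := by
    refine (Submodule.finrank_le _).trans ?_
    rw [Module.finrank_fintype_fun_eq_card, Fintype.card_coe, Finset.card_erase_of_mem hs0]
  rw [Module.finrank_fintype_fun_eq_card, Fintype.card_coe] at h1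
  have h3 : Module.finrank (ZMod 2) (LinearMap.ker μ) ≤
      Module.finrank (ZMod 2) (cyc T) := by
    have h4 : (LinearMap.ker μ).map (ext0 T) ≤ cyc T := by
      rintro z ⟨w, hw, rfl⟩
      refine ⟨?_, ext0_mem T w⟩
      show d1 G (ext0 T w) = 0
      have hw' : ∀ v ∈ S.erase s0, d1 G (ext0 T w) v = 0 := by
        intro v hv
        exact congrFun (LinearMap.mem_ker.1 hw) ⟨v, hv⟩
      have hout : ∀ v, v ∉ S → d1 G (ext0 T w) v = 0 := by
        intro v hv
        rw [d1_apply]
        refine Finset.sum_eq_zero fun d hd => ?_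
        refine ext0_mem T w _ ?_
        rw [hT, mem_inner]
        rintro ⟨h, -⟩
        rw [(Finset.mem_filter.1 hd).2] at h
        exact hv h
      have hs : d1 G (ext0 T w) s0 = 0 := by
        have h5 := sum_d1 (ext0 T w)
        rw [← Finset.add_sum_erase _ _ (Finset.mem_univ s0)] at h5
        rw [Finset.sum_eq_zero, add_zero] at h5
        · exact h5
        · intro v hv
          by_cases hvS : v ∈ S
          · exact hw' v (Finset.mem_erase.2 ⟨(Finset.mem_erase.1 hv).1, hvS⟩)
          · exact hout v hvS
      ext v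
      by_cases hvs : v = s0
      · rw [hvs]; exact hs
      · by_cases hvS : v ∈ S
        · exact hw' v (Finset.mem_erase.2 ⟨hvs, hvS⟩)
        · exact hout v hvS
    calc Module.finrank (ZMod 2) (LinearMap.ker μ)
        = Module.finrank (ZMod 2) ((LinearMap.ker μ).map (ext0 T)) :=
          (LinearEquiv.finrank_eq (Submodule.equivMapOfInjective _ (ext0_injective T) _))
      _ ≤ _ := Submodule.finrank_mono h4
  have hpos : 1 ≤ S.card := Finset.card_pos.2 ⟨s0, hs0⟩
  omega

namespace Rotation

variable (R : Rotation G)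

/-- Two faces are adjacent across an edge outside `T`. -/
def adjOut (T : Finset G.edgeSet) (F F' : R.Face) : Prop :=
  ∃ d : G.Dart, ed d ∉ T ∧ R.fc d = F ∧ R.fc d.symm = F'

/-- The regions of `T`: classes of faces connected across edges outside `T`. -/
abbrev Region (T : Finset G.edgeSet) : Type _ := Quot (R.adjOut T)

noncomputable instance (T : Finset G.edgeSet) : Fintype (R.Region T) := Fintype.ofFinite _

/-- The region on the side of a dart. -/
def reg (T : Finset G.edgeSet) (d : G.Dart) : R.Region T := Quot.mk _ (R.fc d)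

omit [Fintype V] in
theorem reg_symm {T : Finset G.edgeSet} {d : G.Dart} (h : ed d ∉ T) :
    R.reg T d.symm = R.reg T d :=
  (Quot.sound ⟨d, h, rfl, rfl⟩).symm

/-- The boundaries supported in `T`. -/
noncomputable def bd (T : Finset G.edgeSet) : Submodule (ZMod 2) (C1 G) :=
  LinearMap.range R.d2 ⊓ supp T

/-- The indicator of a region, as a chain of faces. -/
noncomputable def ind (T : Finset G.edgeSet) (q : R.Region T) : R.Face → ZMod 2 :=
  fun F => if Quot.mk (R.adjOut T) F = q then 1 else 0

/-- The boundary of a region. -/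
noncomputable def rb (T : Finset G.edgeSet) (q : R.Region T) : C1 G := R.d2 (R.ind T q)

/-- The number of regions without boundary is at most the dimension of the kernel of `d2`. -/
theorem card_closed (T : Finset G.edgeSet) :
    (univ.filter fun q : R.Region T => R.rb T q = 0).card ≤
      Module.finrank (ZMod 2) (LinearMap.ker R.d2) := by
  set Z := univ.filter fun q : R.Region T => R.rb T q = 0 with hZ
  let φ : (Z → ZMod 2) →ₗ[ZMod 2] (R.Face → ZMod 2) :=
    { toFun := fun w F => if h : Quot.mk (R.adjOut T) F ∈ Z then w ⟨_, h⟩ else 0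
      map_add' := by
        intro w w'
        ext F
        by_cases h : Quot.mk (R.adjOut T) F ∈ Z <;> simp [h]
      map_smul' := by
        intro a w
        ext F
        by_cases h : Quot.mk (R.adjOut T) F ∈ Z <;> simp [h] }
  have hφ : Function.Injective φ := by
    intro w w' h
    funext ⟨q, hq⟩
    obtain ⟨F, rfl⟩ := Quot.exists_rep q
    have := congrFun h F
    simpa [φ, hq] using this
  have hker : LinearMap.range φ ≤ LinearMap.ker R.d2 := by
    rintro _ ⟨w, rfl⟩
    have hw : φ w = ∑ q : Z, w q • R.ind T q.1 := by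
      funext F
      rw [Finset.sum_apply]
      by_cases h : Quot.mk (R.adjOut T) F ∈ Z
      · rw [Finset.sum_eq_single ⟨_, h⟩]
        · simp [φ, h, ind]
        · rintro ⟨q, hq⟩ _ hne
          simp only [Pi.smul_apply, ind, smul_eq_mul]
          rw [if_neg, mul_zero]
          intro hF
          exact hne (Subtype.ext hF.symm)
        · intro h'; exact (h' (Finset.mem_univ _)).elim
      · rw [Finset.sum_eq_zero]
        · simp [φ, h]
        · rintro ⟨q, hq⟩ _
          simp only [Pi.smul_apply, ind, smul_eq_mul]
          rw [if_neg, mul_zero]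
          intro hF
          exact h (hF ▸ hq)
    rw [hw, LinearMap.mem_ker, map_sum]
    refine Finset.sum_eq_zero fun q _ => ?_
    rw [map_smul]
    have h0 : R.d2 (R.ind T q.1) = 0 := (Finset.mem_filter.1 q.2).2
    rw [h0, smul_zero]
  have h1 := Submodule.finrank_mono hker
  rw [LinearMap.finrank_range_of_inj hφ, Module.finrank_fintype_fun_eq_card,
    Fintype.card_coe] at h1
  exact h1

theorem finrank_bd_le (T : Finset G.edgeSet) :
    Module.finrank (ZMod 2) (R.bd T) ≤
      (univ.filter fun q : R.Region T => R.rb T q ≠ 0).card := by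
  set Y := (supp T).comap R.d2 with hY
  -- rank-nullity for the restriction of `d2` to `Y`
  have h1 := LinearMap.finrank_range_add_finrank_ker (R.d2.domRestrict Y)
  have h2 : LinearMap.range (R.d2.domRestrict Y) = R.bd T := by
    ext z
    constructor
    · rintro ⟨⟨f, hf⟩, rfl⟩
      exact ⟨⟨f, rfl⟩, hf⟩
    · rintro ⟨⟨f, rfl⟩, hf⟩
      exact ⟨⟨f, hf⟩, rfl⟩
  rw [h2] at h1
  have h3 : Module.finrank (ZMod 2) (LinearMap.ker R.d2) ≤
      Module.finrank (ZMod 2) (LinearMap.ker (R.d2.domRestrict Y)) := by
    have hmem : ∀ f ∈ LinearMap.ker R.d2, f ∈ Y := by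
      intro f hf
      rw [hY, Submodule.mem_comap, LinearMap.mem_ker.1 hf]
      exact zero_mem _
    let ψ : LinearMap.ker R.d2 →ₗ[ZMod 2] LinearMap.ker (R.d2.domRestrict Y) :=
      LinearMap.codRestrict _
        (LinearMap.codRestrict Y (LinearMap.ker R.d2).subtype (fun f => hmem f.1 f.2))
        (fun f => by
          rw [LinearMap.mem_ker]
          exact LinearMap.mem_ker.1 f.2)
    refine LinearMap.finrank_le_finrank_of_injective (f := ψ) ?_
    intro f f' h
    have := congrArg (fun x => (x.1.1 : R.Face → ZMod 2)) h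
    exact Subtype.ext this
  have h4 : Module.finrank (ZMod 2) Y ≤ Fintype.card (R.Region T) := by
    have h5 : Y ≤ LinearMap.range (LinearMap.funLeft (ZMod 2) (ZMod 2)
        (Quot.mk (R.adjOut T))) := by
      intro f hf
      refine ⟨Quot.lift f ?_, ?_⟩
      · rintro F F' ⟨d, hd, rfl, rfl⟩
        have h6 := hf (ed d) hd
        rw [R.d2_ed] at h6
        exact CharTwo.add_eq_zero.1 h6
      · rfl
    calc Module.finrank (ZMod 2) Y ≤ _ := Submodule.finrank_mono h5
      _ ≤ Module.finrank (ZMod 2) (R.Region T → ZMod 2) := LinearMap.finrank_range_le _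
      _ = _ := Module.finrank_fintype_fun_eq_card _
  have h5 := R.card_closed T
  have h6 : (univ.filter fun q : R.Region T => R.rb T q = 0).card +
      (univ.filter fun q : R.Region T => R.rb T q ≠ 0).card = Fintype.card (R.Region T) := by
    rw [← Finset.card_univ]
    exact Finset.card_filter_add_card_filter_not (s := (univ : Finset (R.Region T)))
      (p := fun q => R.rb T q = 0)
  omega

theorem range_d2_le : LinearMap.range R.d2 ≤ LinearMap.ker (d1 G) := by
  rintro _ ⟨f, rfl⟩
  exact R.d1_d2 f

/-- **Number of regions with boundary, general case.** -/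
theorem card_region {S : Finset V} (hS : S.Nonempty) {g : ℕ} (hg : R.twiceGenus ≤ 2 * g) :
    (inner G S).card + 1 ≤
      (univ.filter fun q : R.Region (inner G S) => R.rb (inner G S) q ≠ 0).card +
        S.card + 2 * g := by
  have h1 := R.finrank_bd_le (inner G S)
  have h2 := finrank_cyc (G := G) hS
  have h3 := finrank_ker_d1 G
  have h4 := R.finrank_range_d2
  have h5 := Submodule.finrank_sup_add_finrank_inf_eq (cyc (inner G S)) (LinearMap.range R.d2)
  have h6 : Module.finrank (ZMod 2) ↥(cyc (inner G S) ⊔ LinearMap.range R.d2) ≤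
      Module.finrank (ZMod 2) (LinearMap.ker (d1 G)) :=
    Submodule.finrank_mono (sup_le inf_le_left R.range_d2_le)
  have h7 : Module.finrank (ZMod 2) ↥(cyc (inner G S) ⊓ LinearMap.range R.d2) ≤
      Module.finrank (ZMod 2) (R.bd (inner G S)) :=
    Submodule.finrank_mono (le_inf inf_le_right (inf_le_left.trans inf_le_right))
  have h8 := card_comp G
  unfold twiceGenus faceCount at hg
  omega

/-- **Number of regions with boundary, all cycles bounding.** -/
theorem card_region_of_bounding {S : Finset V}
    (hS : S.Nonempty) (hb : cyc (inner G S) ≤ LinearMap.range R.d2) :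
    (inner G S).card + 1 ≤
      (univ.filter fun q : R.Region (inner G S) => R.rb (inner G S) q ≠ 0).card + S.card := by
  have h1 := R.finrank_bd_le (inner G S)
  have h2 := finrank_cyc (G := G) hS
  have h7 : Module.finrank (ZMod 2) (cyc (inner G S)) ≤
      Module.finrank (ZMod 2) (R.bd (inner G S)) :=
    Submodule.finrank_mono (le_inf hb inf_le_right)
  omega

end Rotation

end Pool.Agent.K7.H30.LP
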